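import Pool.Agent.X221.AP.Rec

set_option autoImplicit false

open OnePoint Matrix Complex Topology Filter

namespace Pool.Agent.X221.AP

/-- the circle of the counterexample -/
noncomputable def CC : Set X := Cz c0

/-- reduced products -/
inductive Red : G → Prop
  | pow (n : ℤ) : Red (gam ^ n)
  | step (m : ℤ) (k : ℕ) (j : ℤ) (g : G) : Nn k ≠ 0 → j ≠ 0 → Red g →
      (∀ z ∈ CC, g • z ∉ Xm k) → Red (gam ^ m * (par (en k) (Nn k)) ^ j * g)

/-- the shape of the images -/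
lemma Red.shape {g : G} (h : Red g) : (∃ n : ℤ, g = gam ^ n) ∨
    ∃ (m : ℤ) (k : ℕ), Nn k ≠ 0 ∧ ∀ z ∈ CC, ∃ y ∈ Xm k, g • z = gam ^ m • y := by
  cases h with
  | pow n => exact Or.inl ⟨n, rfl⟩
  | step m k j g hk hj _ hC =>
    refine Or.inr ⟨m, k, hk, fun z hz => ⟨(par (en k) (Nn k)) ^ j • (g • z), ?_, ?_⟩⟩
    · exact pp (SC_par _ _) (hC z hz) hj
    · rw [mul_smul, mul_smul]

lemma Red.gam_mul {g : G} (h : Red g) (n : ℤ) : Red (gam ^ n * g) := by
  cases h with
  | pow m => rw [← _root_.zpow_add]; exact Red.pow _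
  | step m k j g hk hj hg hC =>
    rw [← mul_assoc, ← mul_assoc, ← _root_.zpow_add]
    exact Red.step _ _ _ _ hk hj hg hC

lemma pow_CC {n : ℤ} {z : X} (hz : z ∈ CC) : gam ^ n • z ∈ Cz (la ^ (-n) * c0) := by
  have h := gam_zpow_Cz n c0
  rw [← h, mem_im, inv_smul_smul]
  exact hz

lemma Red.par_mul {g : G} (h : Red g) {k : ℕ} (hk : Nn k ≠ 0) {i : ℤ} (hi : i ≠ 0) :
    Red ((par (en k) (Nn k)) ^ i * g) := by
  have hstep : ∀ g, Red g → (∀ z ∈ CC, g • z ∉ Xm k) → Red ((par (en k) (Nn k)) ^ i * g) := by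
    intro g hg hC
    have := Red.step 0 k i g hk hi hg hC
    rwa [_root_.zpow_zero, one_mul] at this
  cases h with
  | pow n =>
    refine hstep _ (Red.pow n) fun z hz hin => ?_
    exact Set.disjoint_left.1 (Xm_Kb hk) hin (Cz_sub _ (pow_CC hz))
  | step m k' j g' hk' hj hg' hC =>
    by_cases hmk : m = 0 ∧ k' = k
    · obtain ⟨rfl, rfl⟩ := hmk
      rw [_root_.zpow_zero, one_mul, ← mul_assoc, ← _root_.zpow_add]
      by_cases hij : i + j = 0
      · rw [hij, _root_.zpow_zero, one_mul]; exact hg'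
      · have := Red.step 0 k' (i + j) g' hk hij hg' hC
        rwa [_root_.zpow_zero, one_mul] at this
    · refine hstep _ (Red.step m k' j g' hk' hj hg' hC) fun z hz hin => ?_
      have hy : (par (en k') (Nn k')) ^ j • (g' • z) ∈ Xm k' := pp (SC_par _ _) (hC z hz) hj
      rw [mul_smul, mul_smul] at hin
      by_cases hm : m = 0
      · rw [hm, _root_.zpow_zero, one_smul] at hin
        have hkk : k' ≠ k := fun h => hmk ⟨hm, h⟩
        exact Set.disjoint_left.1 (Xm_Xm hk' hk hkk) hy hin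
      · have h1 := pp SC_gam (fun h => Set.disjoint_left.1 (Xm_gam hk') hy h) hm
        exact Set.disjoint_left.1 (Xm_gam hk) hin h1

lemma Gam_Red {g : G} (hg : g ∈ Gam) : Red g := by
  refine Subgroup.closure_induction_left (p := fun g _ => Red g) ?_ ?_ ?_ hg
  · have := Red.pow 0
    rwa [_root_.zpow_zero] at this
  · rintro x (rfl | ⟨m, hm, rfl⟩) y _ hy
    · have := hy.gam_mul 1
      rwa [zpow_one] at this
    · have := hy.par_mul hm (i := 1) one_ne_zero
      rwa [zpow_one] at this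
  · rintro x (rfl | ⟨m, hm, rfl⟩) y _ hy
    · have := hy.gam_mul (-1)
      rwa [_root_.zpow_neg_one] at this
    · have := hy.par_mul hm (i := -1) (by norm_num)
      rwa [_root_.zpow_neg_one] at this

/-! ### parametrisation of the circles -/

lemma s3c : (s3 : ℂ) ^ 2 = 3 := by
  have := s3_sq
  exact_mod_cast this

/-- the matrix with `h_c R₀ = Cz c` -/
noncomputable def hc (c : ℝ) : G where
  val := !![(s3 : ℂ) * I, s3 * (1 + c); -I, 1 - c]
  inv := !![-(I * s3 * (1 - c) / 6), I * (1 + c) / 2; s3 / 6, 1 / 2]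
  val_inv := by
    have h3 := s3c
    have hI := I_sq
    rw [Matrix.mul_fin_two, Matrix.one_fin_two]
    congr 1
    ext i j
    fin_cases i <;> fin_cases j
    · show (s3 : ℂ) * I * -(I * s3 * (1 - c) / 6) + s3 * (1 + c) * (s3 / 6) = 1
      linear_combination (-(s3 : ℂ) ^ 2 * (1 - c) / 6) * hI + (1 / 3) * h3
    · show (s3 : ℂ) * I * (I * (1 + c) / 2) + s3 * (1 + c) * (1 / 2) = 0
      linear_combination ((s3 : ℂ) * (1 + c) / 2) * hI
    · show -I * -(I * s3 * (1 - c) / 6) + (1 - (c : ℂ)) * (s3 / 6) = 0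
      linear_combination ((s3 : ℂ) * (1 - c) / 6) * hI
    · show -I * (I * (1 + c) / 2) + (1 - (c : ℂ)) * (1 / 2) = 1
      linear_combination (-(1 + (c : ℂ)) / 2) * hI
  inv_val := by
    have h3 := s3c
    have hI := I_sq
    rw [Matrix.mul_fin_two, Matrix.one_fin_two]
    congr 1
    ext i j
    fin_cases i <;> fin_cases j
    · show -(I * s3 * (1 - c) / 6) * ((s3 : ℂ) * I) + I * (1 + c) / 2 * -I = 1
      linear_combination (-(s3 : ℂ) ^ 2 * (1 - c) / 6 - (1 + (c : ℂ)) / 2) * hI +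
        ((1 - (c : ℂ)) / 6) * h3
    · show -(I * s3 * (1 - c) / 6) * ((s3 : ℂ) * (1 + c)) + I * (1 + c) / 2 * (1 - (c : ℂ)) = 0
      linear_combination (-(I * (1 - (c : ℂ)) * (1 + c)) / 6) * h3
    · show (s3 : ℂ) / 6 * (s3 * I) + 1 / 2 * -I = 0
      linear_combination (I / 6) * h3
    · show (s3 : ℂ) / 6 * (s3 * (1 + c)) + 1 / 2 * (1 - (c : ℂ)) = 1
      linear_combination ((1 + (c : ℂ)) / 6) * h3

lemma hc00 (c : ℝ) : hc c 0 0 = (s3 : ℂ) * I := rfl
lemma hc01 (c : ℝ) : hc c 0 1 = (s3 : ℂ) * (1 + c) := rfl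
lemma hc10 (c : ℝ) : hc c 1 0 = -I := rfl
lemma hc11 (c : ℝ) : hc c 1 1 = 1 - (c : ℂ) := rfl

lemma cont_hc : Continuous hc := by
  rw [Units.continuous_iff]
  constructor
  · show Continuous (fun c : ℝ => (!![(s3 : ℂ) * I, s3 * (1 + c); -I, 1 - c] : Matrix (Fin 2) (Fin 2) ℂ))
    refine continuous_matrix fun i j => ?_
    fin_cases i <;> fin_cases j
    · show Continuous fun _ : ℝ => (s3 : ℂ) * I
      exact continuous_const
    · show Continuous fun c : ℝ => (s3 : ℂ) * (1 + c)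
      fun_prop
    · show Continuous fun _ : ℝ => -I
      exact continuous_const
    · show Continuous fun c : ℝ => 1 - (c : ℂ)
      fun_prop
  · show Continuous (fun c : ℝ => (!![-(I * s3 * (1 - c) / 6), I * (1 + c) / 2; (s3 : ℂ) / 6, 1 / 2] :
      Matrix (Fin 2) (Fin 2) ℂ))
    refine continuous_matrix fun i j => ?_
    fin_cases i <;> fin_cases j
    · show Continuous fun c : ℝ => -(I * s3 * (1 - (c : ℂ)) / 6)
      fun_prop
    · show Continuous fun c : ℝ => I * (1 + (c : ℂ)) / 2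
      fun_prop
    · show Continuous fun _ : ℝ => (s3 : ℂ) / 6
      exact continuous_const
    · show Continuous fun _ : ℝ => (1 : ℂ) / 2
      exact continuous_const

lemma im_hc (c : ℝ) : im (hc c) R0 = Cz c := by
  rw [im_R0]
  unfold Cz
  have h3 := s3_sq
  refine Zq_scale (-1) (by norm_num) ?_ ?_ ?_ ?_
  · unfold cA
    rw [hc10, hc11]
    simp
  · unfold cE
    rw [hc00, hc01, hc10, hc11]
    simp
  · unfold cE
    rw [hc00, hc01, hc10, hc11]
    simp
    ring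
  · unfold cD
    rw [hc00, hc01]
    simp
    linear_combination (1 + c) * h3

/-! ### the two halves of the counterexample -/

lemma sq3_mem : ((s3 : ℂ) : X) ∈ Cz 0 := by
  rw [mem_Cz]
  have := s3_sq
  simp [f1, q, ss, rr, normSq_apply]
  linarith

lemma Cz0_Kb : Cz 0 ⊆ Kb := by
  intro z hz
  rw [mem_Cz, zero_mul] at hz
  by_cases h : f2 (rep z) = 0
  · left; unfold g2; rw [h, zero_div]
  · right
    rw [div_g z h, hz, zero_div]
    exact Or.inl rfl

lemma Cz_ne {c : ℝ} (hc : c ≠ 0) : Cz c ≠ Cz 0 := by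
  intro h
  have h1 := sq3_mem
  have h2 := mem_Cz.1 h1
  rw [← h, mem_Cz] at h1
  rw [zero_mul] at h2
  rw [h2] at h1
  rcases mul_eq_zero.1 h1.symm with h3 | h3
  · exact hc h3
  · rw [f2_eq] at h3
    have h4 := normSq_eq_zero.1 h3
    simp only [rep_some, mul_one] at h4
    have h5 : (s3 : ℂ) ≠ 0 := by exact_mod_cast s3_pos.ne'
    apply h5
    linear_combination (1 / 2) * h4

theorem not_closed : ¬ IsClosed {h : G | ∃ γ ∈ Gam, im h R0 = im γ CC} := by
  intro hcl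
  have hla := la_gt
  have hlim : Tendsto (fun n : ℕ => hc ((la⁻¹) ^ n * c0)) atTop (𝓝 (hc 0)) := by
    have h1 : Tendsto (fun n : ℕ => (la⁻¹) ^ n * c0) atTop (𝓝 (0 * c0)) := by
      refine Tendsto.mul_const c0 (tendsto_pow_atTop_nhds_zero_of_lt_one ?_ ?_)
      · have : 0 < la := by linarith
        positivity
      · exact inv_lt_one_of_one_lt₀ hla
    rw [zero_mul] at h1
    exact (cont_hc.tendsto 0).comp h1
  have hmem : ∀ n : ℕ, hc ((la⁻¹) ^ n * c0) ∈ {h : G | ∃ γ ∈ Gam, im h R0 = im γ CC} := by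
    intro n
    refine ⟨gam ^ (n : ℤ), Gam.zpow_mem gam_mem _, ?_⟩
    rw [im_hc]
    unfold CC
    rw [gam_zpow_Cz, _root_.zpow_neg, zpow_natCast, inv_pow]
  obtain ⟨γ, hγ, he⟩ := hcl.mem_of_tendsto hlim (Eventually.of_forall hmem)
  rw [im_hc] at he
  rcases (Gam_Red hγ).shape with ⟨n, rfl⟩ | ⟨m, k, hk, hsh⟩
  · unfold CC at he
    rw [gam_zpow_Cz] at he
    have hla0 : la ≠ 0 := by linarith
    exact Cz_ne (mul_ne_zero (zpow_ne_zero _ hla0) c0_pos.ne') he.symm
  · have h1 := sq3_mem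
    rw [he, mem_im] at h1
    obtain ⟨y, hy, hy'⟩ := hsh _ h1
    rw [smul_inv_smul] at hy'
    have h2 : y ∈ Cz 0 := by
      have h3 : im (gam ^ (-m)) (Cz 0) = Cz 0 := by rw [gam_zpow_Cz, mul_zero]
      rw [← h3, mem_im, ← _root_.zpow_neg, neg_neg, ← hy']
      exact sq3_mem
    exact Set.disjoint_left.1 (Xm_Kb hk) hy (Cz0_Kb h2)

lemma not_both {z : X} (h1 : rho gam z < 1) (h2 : rho gam⁻¹ z < 1) : False := by
  rw [rho_lt] at h1 h2
  rcases SC_gam (rep z) (rep_ne z) with h | h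
  · linarith
  · rw [h] at h1; exact lt_irrefl _ h1

theorem not_dense : (1 : G) ∉ closure {h : G | ∃ γ ∈ Gam, im h R0 = im γ CC} := by
  intro hcl
  have hs := s3_sq
  have hp := s3_pos
  have hl := s3_lt
  set a : X := (((-s3 : ℝ) : ℂ) : X) with ha
  set b : X := (((s3 : ℝ) : ℂ) : X) with hb
  have hq : (2 - s3) ^ 2 < 1 := by nlinarith
  have ra : rho gam a < 1 := by
    rw [rho_lt, ha, rep_some, act_gam]
    have : ((2 * ((-s3 : ℝ) : ℂ) + 3 * 1, ((-s3 : ℝ) : ℂ) + 2 * 1) : Vc) =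
        (((2 - s3 : ℝ) : ℂ)) • ((((-s3 : ℝ) : ℂ), 1) : Vc) := by
      have h3 := s3c
      ext
      · simp only [Prod.smul_fst, smul_eq_mul]
        push_cast
        linear_combination -h3
      · simp only [Prod.smul_snd, smul_eq_mul]
        push_cast
        ring
    simp only
    rw [this, H_smul, normSq_ofReal]
    have hH := H_pos (v := ((((-s3 : ℝ) : ℂ), 1) : Vc)) (by simp)
    nlinarith
  have rb : rho gam⁻¹ b < 1 := by
    rw [rho_lt, hb, rep_some, act_gam_inv]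
    have : ((2 * ((s3 : ℝ) : ℂ) - 3 * 1, -((s3 : ℝ) : ℂ) + 2 * 1) : Vc) =
        (((2 - s3 : ℝ) : ℂ)) • ((((s3 : ℝ) : ℂ), 1) : Vc) := by
      have h3 := s3c
      ext
      · simp only [Prod.smul_fst, smul_eq_mul]
        push_cast
        linear_combination h3
      · simp only [Prod.smul_snd, smul_eq_mul]
        push_cast
        ring
    simp only
    rw [this, H_smul, normSq_ofReal]
    have hH := H_pos (v := ((((s3 : ℝ) : ℂ), 1) : Vc)) (by simp)
    nlinarith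
  have r0 : g1 (((0 : ℝ) : ℂ) : X) < 0 := by
    simp [g1, f1, q, ss, rr, n2]
  have oa : IsOpen {z : X | rho gam z < 1} := isOpen_lt (cont_rho _) continuous_const
  have ob : IsOpen {z : X | rho gam⁻¹ z < 1} := isOpen_lt (cont_rho _) continuous_const
  have o0 : IsOpen {z : X | g1 z < 0} := isOpen_lt cont_g1 continuous_const
  have ea := event_smul oa (g := 1) (z := a) (by rw [one_smul]; exact ra)
  have eb := event_smul ob (g := 1) (z := b) (by rw [one_smul]; exact rb)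
  have e0 := event_smul o0 (g := 1) (z := (((0 : ℝ) : ℂ) : X)) (by rw [one_smul]; exact r0)
  have hfreq := mem_closure_iff_frequently.1 hcl
  obtain ⟨h, ⟨⟨γ, hγ, he⟩, ha'⟩, hb', h0'⟩ := (hfreq.and_eventually ((ea.and (eb.and e0)))).exists.imp
    (fun h hh => (⟨⟨hh.1, hh.2.1⟩, hh.2.2⟩ : (_ ∧ _) ∧ _))
  have mem : ∀ t : ℝ, h • (((t : ℂ)) : X) ∈ im γ CC := by
    intro t
    rw [← he]
    exact ⟨_, Or.inr ⟨t, rfl⟩, rfl⟩
  rcases (Gam_Red hγ).shape with ⟨n, rfl⟩ | ⟨m, k, hk, hsh⟩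
  · have h1 := mem 0
    unfold CC at h1
    rw [gam_zpow_Cz, mem_Cz] at h1
    have h2 : g1 (h • (((0 : ℝ) : ℂ) : X)) < 0 := h0'
    unfold g1 at h2
    rw [h1] at h2
    have h3 : 0 ≤ f2 (rep (h • (((0 : ℝ) : ℂ) : X))) := by rw [f2_eq]; exact normSq_nonneg _
    have h4 : 0 ≤ la ^ (-n) * c0 := by
      have := la_gt; have := c0_pos; positivity
    have h5 := div_nonneg (mul_nonneg h4 h3) (n2_nonneg (rep (h • (((0 : ℝ) : ℂ) : X))))
    linarith
  · have h1 := mem (-s3)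
    have h2 := mem s3
    rw [mem_im] at h1 h2
    obtain ⟨y1, hy1, e1⟩ := hsh _ h1
    obtain ⟨y2, hy2, e2⟩ := hsh _ h2
    rw [smul_inv_smul] at e1 e2
    have a1 : rho gam (gam ^ m • y1) < 1 := by rw [← e1]; exact ha'
    have a2 : rho gam⁻¹ (gam ^ m • y2) < 1 := by rw [← e2]; exact hb'
    have n1 : y1 ∉ Xs gam := fun h => Set.disjoint_left.1 (Xm_gam hk) hy1 h
    have n2' : y2 ∉ Xs gam := fun h => Set.disjoint_left.1 (Xm_gam hk) hy2 h
    rcases lt_trichotomy m 0 with hm | hm | hm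
    · exact not_both (pp_neg SC_gam n2' hm) a2
    · rw [hm, _root_.zpow_zero, one_smul] at a1
      exact n1 (Or.inl (rho_lt.1 a1).le)
    · exact not_both a1 (pp_pos SC_gam n1 hm)

lemma up_half : (im (hc c0) (OnePoint.some '' {z : ℂ | 0 < z.im}) ∩ LP).Nonempty := by
  refine ⟨((s3 : ℂ) : X), ⟨((c0 * I : ℂ) : X), ⟨c0 * I, ?_, rfl⟩, ?_⟩, R0_LP ?_⟩
  · show 0 < (c0 * I : ℂ).im
    simp [c0_pos]
  · show hc c0 • ((c0 * I : ℂ) : X) = ((s3 : ℂ) : X)
    rw [smul_eq, rep_some]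
    have : act (hc c0) (c0 * I, 1) = ((s3 : ℂ), 1) := by
      unfold act
      rw [hc00, hc01, hc10, hc11]
      have hI := I_sq
      ext
      · show (s3 : ℂ) * I * (c0 * I) + s3 * (1 + c0) * 1 = s3
        linear_combination ((s3 : ℂ) * c0) * hI
      · show -I * (c0 * I) + (1 - (c0 : ℂ)) * 1 = 1
        linear_combination (-(c0 : ℂ)) * hI
    rw [this]
    simp [pt]
  · exact Or.inr ⟨s3, rfl⟩

lemma low_half : (im (hc c0) (OnePoint.some '' {z : ℂ | z.im < 0}) ∩ LP).Nonempty := by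
  refine ⟨OnePoint.infty, ⟨((-(1 - c0) * I : ℂ) : X), ⟨-(1 - c0) * I, ?_, rfl⟩, ?_⟩, R0_LP infty_R0⟩
  · show (-(1 - c0) * I : ℂ).im < 0
    have := c0_lt
    simp
    linarith
  · show hc c0 • ((-(1 - c0) * I : ℂ) : X) = OnePoint.infty
    rw [smul_eq, rep_some]
    have : (act (hc c0) (-(1 - c0) * I, 1)).2 = 0 := by
      unfold act
      rw [hc10, hc11]
      have hI := I_sq
      show -I * (-(1 - (c0 : ℂ)) * I) + (1 - (c0 : ℂ)) * 1 = 0
      linear_combination (1 - (c0 : ℂ)) * hI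
    unfold pt
    rw [if_pos this]

end Pool.Agent.X221.AP
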