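import Mathlib

set_option autoImplicit false

open OnePoint Matrix Complex Topology Filter

namespace Pool.Agent.X221.AP

abbrev X := OnePoint ℂ
abbrev G := Matrix.GeneralLinearGroup (Fin 2) ℂ
abbrev Vc := ℂ × ℂ

/-- the point with homogeneous coordinates `v` -/
noncomputable def pt (v : Vc) : X := if v.2 = 0 then (OnePoint.infty : X) else ((v.1 / v.2 : ℂ) : X)

/-- representing vector -/
noncomputable def rep (z : X) : Vc := z.elim ((1, 0) : Vc) (fun w => ((w, 1) : Vc))

@[simp] lemma rep_infty : rep (OnePoint.infty : X) = (1, 0) := rfl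
@[simp] lemma rep_some (w : ℂ) : rep ((w : ℂ) : X) = (w, 1) := rfl

/-- the linear action -/
noncomputable def act (g : G) (v : Vc) : Vc :=
  (g 0 0 * v.1 + g 0 1 * v.2, g 1 0 * v.1 + g 1 1 * v.2)

lemma act_mul (g h : G) (v : Vc) : act (g * h) v = act g (act h v) := by
  unfold act
  simp only [Matrix.GeneralLinearGroup.coe_mul, Matrix.mul_apply, Fin.sum_univ_two]
  ext <;> simp <;> ring

@[simp] lemma act_one (v : Vc) : act 1 v = v := by
  unfold act
  ext <;> simp

@[simp] lemma act_inv_act (g : G) (v : Vc) : act g⁻¹ (act g v) = v := by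
  rw [← act_mul, inv_mul_cancel, act_one]

@[simp] lemma act_act_inv (g : G) (v : Vc) : act g (act g⁻¹ v) = v := by
  rw [← act_mul, mul_inv_cancel, act_one]

lemma act_smul (g : G) (c : ℂ) (v : Vc) : act g (c • v) = c • act g v := by
  unfold act
  ext <;> simp <;> ring

lemma act_add (g : G) (v w : Vc) : act g (v + w) = act g v + act g w := by
  unfold act
  ext <;> simp <;> ring

@[simp] lemma act_zero (g : G) : act g 0 = 0 := by
  unfold act
  ext <;> simp

lemma act_ne {g : G} {v : Vc} (h : v ≠ 0) : act g v ≠ 0 := by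
  intro h0
  apply h
  rw [← act_inv_act g v, h0, act_zero]

lemma rep_ne (z : X) : rep z ≠ 0 := by
  induction z using OnePoint.rec with
  | infty => simp
  | coe w => simp

@[simp] lemma pt_rep (z : X) : pt (rep z) = z := by
  induction z using OnePoint.rec with
  | infty => simp [pt]
  | coe w => simp [pt]

lemma pt_smul {c : ℂ} (hc : c ≠ 0) (v : Vc) : pt (c • v) = pt v := by
  unfold pt
  simp only [Prod.smul_fst, Prod.smul_snd, smul_eq_mul, mul_eq_zero, hc, false_or]
  split_ifs with h
  · rfl
  · rw [mul_div_mul_left _ _ hc]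

lemma exists_smul_rep {v : Vc} (hv : v ≠ 0) : ∃ c : ℂ, c ≠ 0 ∧ v = c • rep (pt v) := by
  unfold pt
  split_ifs with h
  · refine ⟨v.1, ?_, ?_⟩
    · intro h1; apply hv; ext <;> simp [h, h1]
    · ext <;> simp [h]
  · refine ⟨v.2, h, ?_⟩
    ext
    · simp; field_simp
    · simp

lemma smul_pt (g : G) {v : Vc} (hv : v ≠ 0) : g • pt v = pt (act g v) := by
  obtain ⟨c, hc, h⟩ := exists_smul_rep hv
  conv_rhs => rw [h, act_smul, pt_smul hc]
  generalize pt v = z
  induction z using OnePoint.rec with
  | infty =>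
    rw [OnePoint.smul_infty_eq_ite]
    simp [pt, act]
  | coe w =>
    rw [OnePoint.smul_some_eq_ite]
    simp [pt, act]

lemma smul_eq (g : G) (z : X) : g • z = pt (act g (rep z)) := by
  conv_lhs => rw [← pt_rep z]
  exact smul_pt g (rep_ne z)

/-- the determinant form -/
noncomputable def dt (v w : Vc) : ℂ := v.1 * w.2 - v.2 * w.1

lemma dt_act (g : G) (v w : Vc) : dt (act g v) (act g w) = (g : Matrix (Fin 2) (Fin 2) ℂ).det * dt v w := by
  unfold dt act
  rw [Matrix.det_fin_two]
  simp only
  ring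

lemma pt_eq_iff {v w : Vc} (hv : v ≠ 0) (hw : w ≠ 0) : pt v = pt w ↔ dt v w = 0 := by
  unfold pt dt
  have hv' : v.2 = 0 → v.1 ≠ 0 := fun h h1 => hv (by ext <;> simp [h, h1])
  have hw' : w.2 = 0 → w.1 ≠ 0 := fun h h1 => hw (by ext <;> simp [h, h1])
  split_ifs with h1 h2 h2
  · simp [h1, h2]
  · simp only [h1, zero_mul, sub_zero, mul_eq_zero, h2, or_false]
    constructor
    · intro h; exact absurd h (OnePoint.infty_ne_coe _)
    · intro h; exact absurd h (hv' h1)
  · simp only [h2, mul_zero, zero_sub, neg_eq_zero, mul_eq_zero, h1, false_or]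
    constructor
    · intro h; exact absurd h (OnePoint.coe_ne_infty _)
    · intro h; exact absurd h (hw' h2)
  · rw [OnePoint.coe_eq_coe, div_eq_div_iff h1 h2, sub_eq_zero]
    constructor
    · intro h; rw [h]; ring
    · intro h; rw [h]; ring

/-- squared norm -/
noncomputable def n2 (v : Vc) : ℝ := normSq v.1 + normSq v.2

lemma n2_nonneg (v : Vc) : 0 ≤ n2 v := add_nonneg (normSq_nonneg _) (normSq_nonneg _)

lemma n2_pos {v : Vc} (hv : v ≠ 0) : 0 < n2 v := by
  rcases (n2_nonneg v).eq_or_lt with h | h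
  · exfalso
    apply hv
    unfold n2 at h
    have h1 := normSq_nonneg v.1
    have h2 := normSq_nonneg v.2
    ext
    · exact normSq_eq_zero.1 (by linarith)
    · exact normSq_eq_zero.1 (by linarith)
  · exact h

lemma n2_smul (c : ℂ) (v : Vc) : n2 (c • v) = normSq c * n2 v := by
  unfold n2
  simp only [Prod.smul_fst, Prod.smul_snd, smul_eq_mul, normSq_mul]
  ring

lemma dt_smul_left (c : ℂ) (v w : Vc) : dt (c • v) w = c * dt v w := by
  unfold dt; simp; ring
lemma dt_smul_right (c : ℂ) (v w : Vc) : dt v (c • w) = c * dt v w := by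
  unfold dt; simp; ring

/-- a homogeneous continuous function on nonzero vectors induces a continuous function -/
lemma cont_ind (φ : Vc → ℝ) (hφ : ContinuousOn φ {v | v ≠ 0})
    (hom : ∀ c : ℂ, c ≠ 0 → ∀ v : Vc, v ≠ 0 → φ (c • v) = φ v) :
    Continuous (fun z : X => φ (rep z)) := by
  have hne : ∀ v : Vc, v ≠ 0 → ContinuousAt φ v := fun v hv =>
    (hφ v hv).continuousAt (IsOpen.mem_nhds (isOpen_ne) hv)
  rw [continuous_iff_continuousAt]
  intro z
  induction z using OnePoint.rec with
  | infty =>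
    rw [OnePoint.continuousAt_infty']
    simp only [rep_infty]
    have h1 : Tendsto (fun w : ℂ => φ ((1 : ℂ), w⁻¹)) (coclosedCompact ℂ) (𝓝 (φ (1, 0))) := by
      have h2 : Tendsto (fun w : ℂ => ((1 : ℂ), w⁻¹)) (coclosedCompact ℂ) (𝓝 ((1 : ℂ), (0 : ℂ))) := by
        refine Tendsto.prodMk_nhds tendsto_const_nhds ?_
        rw [coclosedCompact_eq_cocompact, ← Metric.cobounded_eq_cocompact]
        exact tendsto_inv₀_cobounded
      exact (hne (1, 0) (by simp)).tendsto.comp h2
    refine h1.congr' ?_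
    have h3 : ∀ᶠ w : ℂ in coclosedCompact ℂ, w ≠ 0 := by
      rw [coclosedCompact_eq_cocompact]
      have := (isCompact_singleton (x := (0:ℂ))).compl_mem_cocompact
      filter_upwards [this] with w hw
      simpa using hw
    filter_upwards [h3] with w hw
    have h4 : ((w, 1) : Vc) = w • ((1 : ℂ), w⁻¹) := by
      ext
      · simp
      · simp [hw]
    simp only [Function.comp, rep_some]
    rw [h4, hom w hw _ (by simp)]
  | coe w =>
    rw [OnePoint.continuousAt_coe]
    have : (fun z : X => φ (rep z)) ∘ (fun w : ℂ => (w : X)) = fun w => φ (w, 1) := rfl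
    rw [this]
    exact ContinuousAt.comp (f := fun w : ℂ => ((w, 1) : Vc)) (hne _ (by simp))
      (continuous_id.prodMk continuous_const).continuousAt

end Pool.Agent.X221.AP
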