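import Pool.Agent.X221.AP.Gau

set_option autoImplicit false

open OnePoint Matrix Complex Topology Filter

namespace Pool.Agent.X221.AP

/-- the real circle -/
def R0 : Set X := insert (OnePoint.infty : OnePoint ℂ) (Set.range (fun x : ℝ => OnePoint.some (x : ℂ)))

/-- image of a set -/
def im (g : G) (S : Set X) : Set X := (fun w : OnePoint ℂ => g • w) '' S

lemma mem_im {g : G} {S : Set X} {z : X} : z ∈ im g S ↔ g⁻¹ • z ∈ S := by
  unfold im
  constructor
  · rintro ⟨w, hw, rfl⟩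
    simpa using hw
  · intro h
    exact ⟨_, h, by simp⟩

lemma im_mul (g h : G) (S : Set X) : im (g * h) S = im g (im h S) := by
  ext z
  simp only [mem_im, _root_.mul_inv_rev, mul_smul]

@[simp] lemma im_one (S : Set X) : im 1 S = S := by
  ext z
  simp [mem_im]

lemma im_inv_im (g : G) (S : Set X) : im g⁻¹ (im g S) = S := by
  rw [← im_mul, inv_mul_cancel, im_one]
lemma im_im_inv (g : G) (S : Set X) : im g (im g⁻¹ S) = S := by
  rw [← im_mul, mul_inv_cancel, im_one]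

lemma im_inter (g : G) (S T : Set X) : im g (S ∩ T) = im g S ∩ im g T := by
  ext z
  simp only [mem_im, Set.mem_inter_iff]

lemma im_empty (g : G) : im g ∅ = ∅ := by
  ext z; simp [mem_im]

lemma im_mono (g : G) {S T : Set X} (h : S ⊆ T) : im g S ⊆ im g T := by
  intro z hz
  rw [mem_im] at hz ⊢
  exact h hz

/-- tangency -/
def Tg (S T : Set X) : Prop := ∃! p, p ∈ S ∩ T

lemma Tg.symm {S T : Set X} (h : Tg S T) : Tg T S := by
  unfold Tg at *
  rwa [Set.inter_comm]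

lemma Tg.im {S T : Set X} (h : Tg S T) (g : G) : Tg (im g S) (im g T) := by
  obtain ⟨p, hp, hu⟩ := h
  refine ⟨g • p, ?_, ?_⟩
  · show g • p ∈ AP.im g S ∩ AP.im g T
    rw [← im_inter, mem_im]
    simpa using hp
  · intro z hz
    have hz' : z ∈ AP.im g S ∩ AP.im g T := hz
    rw [← im_inter, mem_im] at hz'
    have := hu _ hz'
    rw [← this]
    simp

/-- circles -/
def IsC (V : Set X) : Prop := ∃ g : G, V = im g R0

lemma IsC.im {V : Set X} (h : IsC V) (g : G) : IsC (im g V) := by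
  obtain ⟨k, rfl⟩ := h
  exact ⟨g * k, (im_mul _ _ _).symm⟩

noncomputable def ss (v : Vc) : ℝ := v.1.im * v.2.re - v.1.re * v.2.im
noncomputable def rr (v : Vc) : ℝ := v.1.re * v.2.re + v.1.im * v.2.im

noncomputable def q (A e1 e2 D : ℝ) (v : Vc) : ℝ :=
  A * normSq v.1 + e1 * ss v + e2 * rr v + D * normSq v.2

lemma q_smul (A e1 e2 D : ℝ) (c : ℂ) (v : Vc) : q A e1 e2 D (c • v) = normSq c * q A e1 e2 D v := by
  unfold q ss rr
  simp only [Prod.smul_fst, Prod.smul_snd, smul_eq_mul, normSq_apply, mul_re, mul_im]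
  ring

noncomputable def Zq (A e1 e2 D : ℝ) : Set X := {z | q A e1 e2 D (rep z) = 0}

lemma mem_Zq_pt {A e1 e2 D : ℝ} {v : Vc} (hv : v ≠ 0) :
    pt v ∈ Zq A e1 e2 D ↔ q A e1 e2 D v = 0 := by
  obtain ⟨c, hc, h⟩ := exists_smul_rep hv
  unfold Zq
  rw [Set.mem_ofPred_eq]
  conv_rhs => rw [h, q_smul]
  have h1 : normSq c ≠ 0 := by simpa using hc
  simp [h1]

lemma mem_Zq_infty {A e1 e2 D : ℝ} : (OnePoint.infty : X) ∈ Zq A e1 e2 D ↔ A = 0 := by
  simp [Zq, q, ss, rr]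

lemma mem_Zq_some {A e1 e2 D : ℝ} {w : ℂ} :
    (w : X) ∈ Zq A e1 e2 D ↔ A * (w.re * w.re + w.im * w.im) + e1 * w.im + e2 * w.re + D = 0 := by
  simp [Zq, q, ss, rr, normSq_apply]

lemma mem_R0 {z : X} : z ∈ R0 ↔ ss (rep z) = 0 := by
  unfold R0
  induction z using OnePoint.rec with
  | infty => simp [ss]
  | coe w =>
    simp only [ss, rep_some, one_re, one_im, mul_one, mul_zero, sub_zero]
    constructor
    · rintro (h | ⟨x, hx⟩)
      · exact absurd h (OnePoint.coe_ne_infty _)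
      · have : (x : ℂ) = w := OnePoint.coe_eq_coe.1 hx
        rw [← this]; simp
    · intro h
      refine Or.inr ⟨w.re, ?_⟩
      show ((w.re : ℂ) : X) = (w : X)
      congr 1
      apply Complex.ext <;> simp [h]

lemma R0_eq : R0 = Zq 0 1 0 0 := by
  ext z
  rw [mem_R0]
  simp [Zq, q]

lemma Zq_scale {A e1 e2 D A' e1' e2' D' : ℝ} (c : ℝ) (hc : c ≠ 0) (h0 : A' = c * A)
    (h1 : e1' = c * e1) (h2 : e2' = c * e2) (h3 : D' = c * D) : Zq A' e1' e2' D' = Zq A e1 e2 D := by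
  ext z
  simp only [Zq, Set.mem_ofPred_eq]
  have : q A' e1' e2' D' (rep z) = c * q A e1 e2 D (rep z) := by
    unfold q; rw [h0, h1, h2, h3]; ring
  rw [this]
  simp [hc]

lemma im_Zq (g : G) {A e1 e2 D A' e1' e2' D' : ℝ} (c : ℝ) (hc : c ≠ 0)
    (h : ∀ v, q A' e1' e2' D' (act g v) = c * q A e1 e2 D v) :
    im g (Zq A e1 e2 D) = Zq A' e1' e2' D' := by
  ext z
  rw [mem_im]
  have hu : act g⁻¹ (rep z) ≠ 0 := act_ne (rep_ne z)
  rw [smul_eq, mem_Zq_pt hu]
  show _ ↔ q A' e1' e2' D' (rep z) = 0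
  have := h (act g⁻¹ (rep z))
  rw [act_act_inv] at this
  rw [this]
  simp [hc]

/-- the coefficients of the image of the real circle -/
noncomputable def cA (g : G) : ℝ := (g 1 0 * (starRingEnd ℂ) (g 1 1)).im
noncomputable def cD (g : G) : ℝ := (g 0 0 * (starRingEnd ℂ) (g 0 1)).im
noncomputable def cE (g : G) : ℂ := (starRingEnd ℂ) (g 0 0) * g 1 1 - (starRingEnd ℂ) (g 0 1) * g 1 0

lemma im_R0 (g : G) : im g R0 = Zq (cA g) (cE g).re (cE g).im (cD g) := by
  rw [R0_eq]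
  have hdet : (g : Matrix (Fin 2) (Fin 2) ℂ).det ≠ 0 := g.det_ne_zero
  refine im_Zq g (normSq ((g : Matrix (Fin 2) (Fin 2) ℂ).det)) (by simpa using hdet) ?_
  intro v
  rw [Matrix.det_fin_two]
  unfold q ss rr act cA cD cE
  simp only [normSq_apply, mul_re, mul_im, sub_re, sub_im, add_re, add_im, conj_re, conj_im]
  ring

lemma disc_eq (g : G) : (cE g).re ^ 2 + (cE g).im ^ 2 - 4 * cA g * cD g =
    normSq ((g : Matrix (Fin 2) (Fin 2) ℂ).det) := by
  rw [Matrix.det_fin_two]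
  unfold cA cD cE
  simp only [normSq_apply, mul_re, mul_im, sub_re, sub_im, conj_re, conj_im]
  ring

lemma IsC.exists {V : Set X} (h : IsC V) : ∃ A e1 e2 D : ℝ, V = Zq A e1 e2 D ∧
    0 < e1 ^ 2 + e2 ^ 2 - 4 * A * D := by
  obtain ⟨g, rfl⟩ := h
  refine ⟨_, _, _, _, im_R0 g, ?_⟩
  rw [disc_eq]
  have hdet : (g : Matrix (Fin 2) (Fin 2) ℂ).det ≠ 0 := g.det_ne_zero
  exact normSq_pos.2 hdet

/-- Gaussian circles -/
def F0 : Set (Set X) := {V | ∃ k, V = im (emb k) R0}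

lemma F0.isC {V : Set X} (h : V ∈ F0) : IsC V := by
  obtain ⟨k, rfl⟩ := h; exact ⟨_, rfl⟩

lemma F0.im {V : Set X} (h : V ∈ F0) (k : Matrix.SpecialLinearGroup (Fin 2) GaussianInt) :
    im (emb k) V ∈ F0 := by
  obtain ⟨l, rfl⟩ := h
  exact ⟨k * l, by rw [map_mul, im_mul]⟩

lemma int_circ {V : Set X} (h : V ∈ F0) : ∃ A e1 e2 D : ℤ, V = Zq A e1 e2 D ∧ Odd e1 ∧
    e1 ^ 2 + e2 ^ 2 - 4 * A * D = 1 := by
  obtain ⟨k, rfl⟩ := h
  have hdet : (k 0 0) * (k 1 1) - (k 0 1) * (k 1 0) = 1 := by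
    rw [← Matrix.det_fin_two, k.det_coe]
  have h1 : (k 0 0).re * (k 1 1).re - (k 0 0).im * (k 1 1).im -
      ((k 0 1).re * (k 1 0).re - (k 0 1).im * (k 1 0).im) = 1 := by
    have := congrArg Zsqrtd.re hdet
    simp [Zsqrtd.re_mul] at this
    linarith
  have h2 : (k 0 0).re * (k 1 1).im + (k 0 0).im * (k 1 1).re -
      ((k 0 1).re * (k 1 0).im + (k 0 1).im * (k 1 0).re) = 0 := by
    have := congrArg Zsqrtd.im hdet
    simp [Zsqrtd.im_mul] at this
    linarith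
  refine ⟨(k 1 0).im * (k 1 1).re - (k 1 0).re * (k 1 1).im,
    (k 0 0).re * (k 1 1).re + (k 0 0).im * (k 1 1).im - ((k 0 1).re * (k 1 0).re +
      (k 0 1).im * (k 1 0).im),
    (k 0 0).re * (k 1 1).im - (k 0 0).im * (k 1 1).re - ((k 0 1).re * (k 1 0).im -
      (k 0 1).im * (k 1 0).re),
    (k 0 0).im * (k 0 1).re - (k 0 0).re * (k 0 1).im, ?_, ?_, ?_⟩
  · rw [im_R0]
    unfold cA cD cE
    simp only [emb_apply]
    simp only [mul_re, mul_im, sub_re, sub_im, conj_re, conj_im]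
    push_cast
    simp only [GaussianInt.intCast_re, GaussianInt.intCast_im]
    congr 1 <;> ring
  · refine ⟨(k 0 0).im * (k 1 1).im - (k 0 1).im * (k 1 0).im, ?_⟩
    linarith
  · linear_combination (((k 0 0).re * (k 1 1).re - (k 0 0).im * (k 1 1).im -
      ((k 0 1).re * (k 1 0).re - (k 0 1).im * (k 1 0).im)) + 1) * h1 +
      ((k 0 0).re * (k 1 1).im + (k 0 0).im * (k 1 1).re -
      ((k 0 1).re * (k 1 0).im + (k 0 1).im * (k 1 0).re)) * h2

end Pool.Agent.X221.AP
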