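import Pool.Agent.X221.AP.Top

set_option autoImplicit false

open OnePoint Matrix Complex Topology Filter

namespace Pool.Agent.X221.AP

/-- the Gaussian integral matrices of determinant one inside `GL (2, ℂ)` -/
noncomputable def emb : Matrix.SpecialLinearGroup (Fin 2) GaussianInt →* G :=
  (Matrix.SpecialLinearGroup.toGL).comp (Matrix.SpecialLinearGroup.map GaussianInt.toComplex)

lemma emb_apply (k : Matrix.SpecialLinearGroup (Fin 2) GaussianInt) (i j : Fin 2) :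
    emb k i j = ((k i j : GaussianInt) : ℂ) := rfl

lemma emb_det (k : Matrix.SpecialLinearGroup (Fin 2) GaussianInt) :
    (emb k : Matrix (Fin 2) (Fin 2) ℂ).det = 1 := by
  have h : (k 0 0) * (k 1 1) - (k 0 1) * (k 1 0) = 1 := by
    rw [← Matrix.det_fin_two, k.det_coe]
  rw [Matrix.det_fin_two]
  show ((k 0 0 : GaussianInt) : ℂ) * ((k 1 1 : GaussianInt) : ℂ) -
    ((k 0 1 : GaussianInt) : ℂ) * ((k 1 0 : GaussianInt) : ℂ) = 1
  rw [← map_mul, ← map_mul, ← map_sub, h, map_one]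

lemma fin_gauss (R : ℝ) : {z : GaussianInt | normSq (z : ℂ) ≤ R}.Finite := by
  obtain ⟨M, hM⟩ := exists_int_gt R
  have h1 : (Set.Icc (-M) M ×ˢ Set.Icc (-M) M : Set (ℤ × ℤ)).Finite :=
    (Set.finite_Icc _ _).prod (Set.finite_Icc _ _)
  refine (h1.image (fun p : ℤ × ℤ => (⟨p.1, p.2⟩ : GaussianInt))).subset ?_
  intro z hz
  refine ⟨(z.re, z.im), ?_, rfl⟩
  have h2 : ((z.re * z.re + z.im * z.im : ℤ) : ℝ) ≤ R := by
    have : normSq (z : ℂ) = ((z.re * z.re + z.im * z.im : ℤ) : ℝ) := by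
      rw [normSq_apply]; simp
    rw [← this]; exact hz
  have h3 : z.re * z.re + z.im * z.im < M := by exact_mod_cast h2.trans_lt hM
  simp only [Set.mem_prod, Set.mem_Icc]
  refine ⟨⟨?_, ?_⟩, ?_, ?_⟩ <;> nlinarith [mul_self_nonneg z.re, mul_self_nonneg z.im,
    mul_self_nonneg (z.re - 1), mul_self_nonneg (z.re + 1), mul_self_nonneg (z.im - 1),
    mul_self_nonneg (z.im + 1), Int.le_self_sq z.re, Int.le_self_sq z.im,
    Int.le_self_sq (-z.re), Int.le_self_sq (-z.im)]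

lemma fin_SL (R : ℝ) : {k : Matrix.SpecialLinearGroup (Fin 2) GaussianInt |
    ∀ i j, normSq ((k i j : GaussianInt) : ℂ) ≤ R}.Finite := by
  set F := {z : GaussianInt | normSq (z : ℂ) ≤ R} with hF
  have hfin : (Set.pi Set.univ (fun _ : Fin 2 × Fin 2 => F)).Finite :=
    Set.Finite.pi fun _ => fin_gauss R
  set f : Matrix.SpecialLinearGroup (Fin 2) GaussianInt → (Fin 2 × Fin 2 → GaussianInt) :=
    fun k p => k p.1 p.2 with hf
  have hinj : Function.Injective f := by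
    intro k l h
    apply Matrix.SpecialLinearGroup.ext
    intro i j
    exact congrFun h (i, j)
  refine (hfin.preimage hinj.injOn).subset ?_
  intro k hk p _
  exact hk p.1 p.2

/-- the squared Frobenius norm -/
noncomputable def fro (g : G) : ℝ := n2 (act g (1, 0)) + n2 (act g (0, 1))

lemma fro_inv {g : G} (hg : (g : Matrix (Fin 2) (Fin 2) ℂ).det = 1) : fro g⁻¹ = fro g := by
  have h : ((g⁻¹ : G) : Matrix (Fin 2) (Fin 2) ℂ) = Matrix.adjugate (g : Matrix (Fin 2) (Fin 2) ℂ) := by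
    rw [Matrix.coe_units_inv, Matrix.inv_def, hg]; simp
  have e : ∀ i j, g⁻¹ i j = Matrix.adjugate (g : Matrix (Fin 2) (Fin 2) ℂ) i j := by
    intro i j; rw [← h]
  unfold fro n2 act
  simp only [e, Matrix.adjugate_fin_two]
  simp
  ring

lemma dt_sum (w : Vc) : normSq (dt w (1, 0)) + normSq (dt w (0, 1)) = n2 w := by
  unfold dt n2; simp; ring

lemma fro_bound {g : G} (hg : (g : Matrix (Fin 2) (Fin 2) ℂ).det = 1) {z : X} {δ ε : ℝ}
    (hδ : 0 < δ) (hε : 0 < ε)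
    (h1 : δ ≤ Dd z (g⁻¹ • pt (1, 0))) (h2 : δ ≤ Dd z (g⁻¹ • pt (0, 1)))
    (h3 : ε ≤ Dd (g • z) (g • pt (1, 0))) (h4 : ε ≤ Dd (g • z) (g • pt (0, 1))) :
    fro g ^ 2 ≤ 1 / (ε * δ) := by
  have e1 : ((1, 0) : Vc) ≠ 0 := by simp
  have e2 : ((0, 1) : Vc) ≠ 0 := by simp
  have hv := rep_ne z
  set v := rep z with hvdef
  have hz : z = pt v := (pt_rep z).symm
  have hnv := n2_pos hv
  have hngv := n2_pos (act_ne (g := g) hv)
  have hdi : ((g⁻¹ : G) : Matrix (Fin 2) (Fin 2) ℂ).det = 1 := by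
    have h : (g : Matrix (Fin 2) (Fin 2) ℂ).det * ((g⁻¹ : G) : Matrix (Fin 2) (Fin 2) ℂ).det = 1 := by
      rw [← Matrix.det_mul, ← Matrix.GeneralLinearGroup.coe_mul, mul_inv_cancel]; simp
    rw [hg, one_mul] at h; exact h
  have k1 : ∀ e : Vc, e ≠ 0 → δ ≤ Dd z (g⁻¹ • pt e) →
      δ * (n2 v * n2 (act g⁻¹ e)) ≤ normSq (dt (act g v) e) := by
    intro e he h
    rw [hz, smul_pt g⁻¹ he, Dd_pt hv (act_ne he)] at h
    have hp : 0 < n2 v * n2 (act g⁻¹ e) := mul_pos hnv (n2_pos (act_ne he))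
    rw [le_div_iff₀ hp] at h
    have : dt v (act g⁻¹ e) = dt (act g v) e := by
      have := dt_act g v (act g⁻¹ e)
      rw [hg, one_mul, act_act_inv] at this
      exact this.symm
    rwa [this] at h
  have k2 : ∀ e : Vc, e ≠ 0 → ε ≤ Dd (g • z) (g • pt e) →
      ε * (n2 (act g v) * n2 (act g e)) ≤ normSq (dt v e) := by
    intro e he h
    rw [hz, smul_pt g he, smul_pt g hv, Dd_pt (act_ne hv) (act_ne he)] at h
    have hp : 0 < n2 (act g v) * n2 (act g e) := mul_pos hngv (n2_pos (act_ne he))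
    rw [le_div_iff₀ hp] at h
    rwa [dt_act, hg, one_mul] at h
  have a1 := k1 _ e1 h1
  have a2 := k1 _ e2 h2
  have b1 := k2 _ e1 h3
  have b2 := k2 _ e2 h4
  have A : δ * n2 v * fro g ≤ n2 (act g v) := by
    rw [← dt_sum (act g v), ← fro_inv hg]
    unfold fro
    nlinarith [a1, a2]
  have B : ε * n2 (act g v) * fro g ≤ n2 v := by
    rw [← dt_sum v]
    unfold fro
    nlinarith [b1, b2]
  have hf : 0 ≤ fro g := add_nonneg (n2_nonneg _) (n2_nonneg _)
  have C : ε * δ * fro g ^ 2 * n2 v ≤ 1 * n2 v := by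
    calc ε * δ * fro g ^ 2 * n2 v = ε * (δ * n2 v * fro g) * fro g := by ring
      _ ≤ ε * n2 (act g v) * fro g := by gcongr
      _ ≤ n2 v := B
      _ = 1 * n2 v := by ring
  have D := le_of_mul_le_mul_right C hnv
  rw [le_div_iff₀ (mul_pos hε hδ)]
  linarith

/-- **the orbits accumulate only at a closed invariant set** -/
theorem derived_sub (Γ : Subgroup G) (hΓ : ∀ g ∈ Γ, g ∈ emb.range) {L : Set X} (hL : IsClosed L)
    (inv : ∀ g ∈ Γ, ∀ z ∈ L, g • z ∈ L) (h0 : pt (1, 0) ∈ L) (h1 : pt (0, 1) ∈ L) (z : X) :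
    derivedSet {w : X | ∃ g ∈ Γ, w = g • z} ⊆ L := by
  intro y hy
  by_contra hyL
  by_cases hz : z ∈ L
  · have h2 : closure {w : X | ∃ g ∈ Γ, w = g • z} ⊆ L := by
      refine closure_minimal ?_ hL
      rintro w ⟨g, hg, rfl⟩
      exact inv g hg z hz
    exact hyL (h2 ((mem_closure_iff_clusterPt.2 hy.clusterPt)))
  · obtain ⟨δ, hδ, hδ'⟩ := exists_gap hL hz
    obtain ⟨η, hη, hη'⟩ := exists_gap hL hyL
    set ε := η / 4 with hε
    have hε0 : 0 < ε := by positivity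
    set B : Set G := {g | g ∈ Γ ∧ Dd (g • z) y < ε} with hB
    have hbd : ∀ g ∈ B, fro g ^ 2 ≤ 1 / (ε * δ) := by
      rintro g ⟨hg, hgy⟩
      obtain ⟨k, rfl⟩ := hΓ g hg
      have hgap : ∀ l ∈ L, ε ≤ Dd (emb k • z) l := by
        intro l hl
        have h3 := hη' l hl
        have h4 := tri y (emb k • z) l
        rw [hε] at hgy ⊢
        linarith
      exact fro_bound (emb_det k) hδ hε0
        (hδ' _ (inv _ (Γ.inv_mem hg) _ h0)) (hδ' _ (inv _ (Γ.inv_mem hg) _ h1))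
        (hgap _ (inv _ hg _ h0)) (hgap _ (inv _ hg _ h1))
    have hfin : B.Finite := by
      obtain ⟨R, hR⟩ : ∃ R : ℝ, 1 ≤ R ∧ 1 / (ε * δ) ≤ R :=
        ⟨max 1 (1 / (ε * δ)), le_max_left _ _, le_max_right _ _⟩
      refine ((fin_SL R).image emb).subset ?_
      intro g hg
      obtain ⟨k, rfl⟩ := hΓ g hg.1
      refine ⟨k, ?_, rfl⟩
      have h5 := (hbd _ hg).trans hR.2
      have h6 : fro (emb k) ≤ R := by
        have hf : 0 ≤ fro (emb k) := add_nonneg (n2_nonneg _) (n2_nonneg _)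
        nlinarith [hR.1]
      have h7 : normSq (k 0 0 : ℂ) + normSq (k 1 0 : ℂ) + (normSq (k 0 1 : ℂ) + normSq (k 1 1 : ℂ)) ≤ R := by
        have : fro (emb k) = normSq (k 0 0 : ℂ) + normSq (k 1 0 : ℂ) + (normSq (k 0 1 : ℂ) + normSq (k 1 1 : ℂ)) := by
          unfold fro n2 act
          simp [emb_apply]
        rwa [this] at h6
      intro i j
      have p1 := normSq_nonneg (k 0 0 : ℂ)
      have p2 := normSq_nonneg (k 0 1 : ℂ)
      have p3 := normSq_nonneg (k 1 0 : ℂ)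
      have p4 := normSq_nonneg (k 1 1 : ℂ)
      fin_cases i <;> fin_cases j
      · show normSq (k 0 0 : ℂ) ≤ R; linarith
      · show normSq (k 0 1 : ℂ) ≤ R; linarith
      · show normSq (k 1 0 : ℂ) ≤ R; linarith
      · show normSq (k 1 1 : ℂ) ≤ R; linarith
    have hfin2 : ((fun g : G => g • z) '' B).Finite := hfin.image _
    have hopen : IsOpen ({u : X | Dd u y < ε} \ (((fun g : G => g • z) '' B) \ {y})) := by
      refine (isOpen_lt (cont_Dd y) continuous_const).sdiff ?_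
      exact (hfin2.subset Set.sdiff_subset).isClosed
    have hmem : y ∈ ({u : X | Dd u y < ε} \ (((fun g : G => g • z) '' B) \ {y})) := by
      refine ⟨by simpa [Dd_self] using hε0, fun h => h.2 rfl⟩
    rw [mem_derivedSet, accPt_iff_nhds] at hy
    obtain ⟨w, ⟨⟨hw1, hw2⟩, g, hg, rfl⟩, hwy⟩ := hy _ (hopen.mem_nhds hmem)
    exact hw2 ⟨⟨g, ⟨hg, hw1⟩, rfl⟩, hwy⟩

end Pool.Agent.X221.AP
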