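import Pool.Agent.X221.AP.Pack

set_option autoImplicit false

open OnePoint Matrix Complex Topology Filter

namespace Pool.Agent.X221.AP

lemma exists_tau : ∃ t : ℝ, 1 < t ∧ t < 2 ∧ ∀ a b c d : ℤ,
    (a : ℝ) + b * t + c * t ^ 2 + d * t ^ 3 = 0 → a = 0 ∧ b = 0 ∧ c = 0 ∧ d = 0 := by
  have hc : {x : ℝ | IsAlgebraic ℤ x}.Countable := Algebraic.countable ℤ ℝ
  have h1 : ¬ (Set.Ioo (1 : ℝ) 2 ⊆ {x : ℝ | IsAlgebraic ℤ x}) := by
    intro hsub
    have h2 := hc.mono hsub
    have h3 := Cardinal.mk_Ioo_real (show (1 : ℝ) < 2 by norm_num)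
    have h4 := Cardinal.le_aleph0_iff_set_countable.2 h2
    rw [h3] at h4
    exact absurd h4 (not_le.2 Cardinal.aleph0_lt_continuum)
  obtain ⟨t, ⟨ht1, ht2⟩, hta⟩ := Set.not_subset.1 h1
  refine ⟨t, ht1, ht2, fun a b c d h => ?_⟩
  set p : Polynomial ℤ := Polynomial.C a + Polynomial.C b * Polynomial.X +
    Polynomial.C c * Polynomial.X ^ 2 + Polynomial.C d * Polynomial.X ^ 3 with hp
  have hev : Polynomial.aeval t p = 0 := by
    rw [hp]
    simp only [map_add, map_mul, Polynomial.aeval_C, Polynomial.aeval_X, map_pow]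
    simpa using h
  have hp0 : p = 0 := by
    by_contra hne
    exact hta ⟨p, hne, hev⟩
  have hcoef : ∀ n, p.coeff n = 0 := by intro n; rw [hp0]; simp
  have c0 := hcoef 0
  have c1 := hcoef 1
  have c2 := hcoef 2
  have c3 := hcoef 3
  rw [hp] at c0 c1 c2 c3
  simp only [Polynomial.coeff_add, Polynomial.coeff_C_mul, Polynomial.coeff_C, Polynomial.coeff_X,
    Polynomial.coeff_X_pow] at c0 c1 c2 c3
  norm_num at c0 c1 c2 c3
  exact ⟨c0, c1, c2, c3⟩

noncomputable def tau : ℝ := Classical.choose exists_tau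
lemma tau1 : 1 < tau := (Classical.choose_spec exists_tau).1
lemma tau2 : tau < 2 := (Classical.choose_spec exists_tau).2.1
lemma tau_ind (a b c d : ℤ) (h : (a : ℝ) + b * tau + c * tau ^ 2 + d * tau ^ 3 = 0) :
    a = 0 ∧ b = 0 ∧ c = 0 ∧ d = 0 := (Classical.choose_spec exists_tau).2.2 a b c d h

/-- the generic positive definite hermitian form -/
noncomputable def H (v : Vc) : ℝ := q 1 (tau ^ 2) tau (tau ^ 3) v

noncomputable def del : ℝ := 4 * tau ^ 3 - tau ^ 4 - tau ^ 2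

lemma del_pos : 0 < del := by
  have h1 := tau1
  have h2 := tau2
  have : del = tau ^ 2 * (4 * tau - tau ^ 2 - 1) := by unfold del; ring
  rw [this]
  have : 0 < 4 * tau - tau ^ 2 - 1 := by nlinarith
  positivity

lemma H_key (v : Vc) : 4 * H v = normSq (2 * v.1 + (⟨tau, tau ^ 2⟩ : ℂ) * v.2) +
    del * normSq v.2 := by
  unfold H q ss rr del
  simp only [normSq_apply, mul_re, mul_im, add_re, add_im, re_ofNat, im_ofNat]
  ring

lemma H_key' (v : Vc) : 4 * tau ^ 3 * H v =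
    normSq (2 * (tau ^ 3 : ℝ) * v.2 + (⟨tau, -tau ^ 2⟩ : ℂ) * v.1) + del * normSq v.1 := by
  unfold H q ss rr del
  simp only [normSq_apply, mul_re, mul_im, add_re, add_im, re_ofNat, im_ofNat, ofReal_re, ofReal_im]
  ring

lemma H_ge2 (v : Vc) : del * normSq v.2 ≤ 4 * H v := by
  rw [H_key]; linarith [normSq_nonneg (2 * v.1 + (⟨tau, tau ^ 2⟩ : ℂ) * v.2)]

lemma H_ge1 (v : Vc) : del * normSq v.1 ≤ 4 * tau ^ 3 * H v := by
  rw [H_key']; linarith [normSq_nonneg (2 * (tau ^ 3 : ℝ) * v.2 + (⟨tau, -tau ^ 2⟩ : ℂ) * v.1)]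

lemma H_nonneg (v : Vc) : 0 ≤ H v := by
  have := H_ge2 v
  have := mul_nonneg del_pos.le (normSq_nonneg v.2)
  linarith

lemma H_pos {v : Vc} (hv : v ≠ 0) : 0 < H v := by
  rcases (H_nonneg v).eq_or_lt with h | h
  · exfalso
    apply hv
    have h1 := H_ge1 v
    have h2 := H_ge2 v
    rw [← h, mul_zero] at h1 h2
    have e1 : normSq v.1 = 0 := by
      have := normSq_nonneg v.1
      have := del_pos
      nlinarith
    have e2 : normSq v.2 = 0 := by
      have := normSq_nonneg v.2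
      have := del_pos
      nlinarith
    ext
    · exact normSq_eq_zero.1 e1
    · exact normSq_eq_zero.1 e2
  · exact h

lemma H_smul (c : ℂ) (v : Vc) : H (c • v) = normSq c * H v := q_smul _ _ _ _ _ _

lemma H_zero : H 0 = 0 := by
  have := H_smul 0 0
  simpa using this

lemma H_par (u w : Vc) : H (u + w) + H (u - w) = 2 * H u + 2 * H w := by
  unfold H q ss rr
  simp only [normSq_apply, Prod.fst_add, Prod.snd_add, Prod.fst_sub, Prod.snd_sub, add_re, add_im,
    sub_re, sub_im]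
  ring

lemma cont_H : Continuous H := by
  unfold H q ss rr
  fun_prop

/-- Gaussian vectors -/
def GV (v : Vc) : Prop := ∃ r s : GaussianInt, v = ((r : ℂ), (s : ℂ))

lemma H_inj {v w : Vc} (hv : GV v) (hw : GV w) (hv0 : v ≠ 0) (hw0 : w ≠ 0) (h : H v = H w) :
    pt v = pt w := by
  obtain ⟨r, s, rfl⟩ := hv
  obtain ⟨r', s', rfl⟩ := hw
  unfold H q ss rr at h
  simp only [normSq_apply] at h
  simp only [← GaussianInt.intCast_re, ← GaussianInt.intCast_im] at h
  obtain ⟨a1, a2, a3, a4⟩ := tau_ind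
    ((r.re * r.re + r.im * r.im) - (r'.re * r'.re + r'.im * r'.im))
    ((r.re * s.re + r.im * s.im) - (r'.re * s'.re + r'.im * s'.im))
    ((r.im * s.re - r.re * s.im) - (r'.im * s'.re - r'.re * s'.im))
    ((s.re * s.re + s.im * s.im) - (s'.re * s'.re + s'.im * s'.im)) (by
      push_cast
      linear_combination h)
  rw [pt_eq_iff hv0 hw0]
  have b4 : normSq (s : ℂ) = normSq (s' : ℂ) := by
    simp only [normSq_apply, ← GaussianInt.intCast_re, ← GaussianInt.intCast_im]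
    exact_mod_cast sub_eq_zero.1 a4
  have b : (r : ℂ) * (starRingEnd ℂ) (s : ℂ) = (r' : ℂ) * (starRingEnd ℂ) (s' : ℂ) := by
    apply Complex.ext
    · simp only [mul_re, conj_re, conj_im, ← GaussianInt.intCast_re, ← GaussianInt.intCast_im]
      have : ((r.re * s.re + r.im * s.im : ℤ) : ℝ) = ((r'.re * s'.re + r'.im * s'.im : ℤ) : ℝ) := by
        exact_mod_cast sub_eq_zero.1 a2
      push_cast at this
      linarith
    · simp only [mul_im, conj_re, conj_im, ← GaussianInt.intCast_re, ← GaussianInt.intCast_im]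
      have : ((r.im * s.re - r.re * s.im : ℤ) : ℝ) = ((r'.im * s'.re - r'.re * s'.im : ℤ) : ℝ) := by
        exact_mod_cast sub_eq_zero.1 a3
      push_cast at this
      linarith
  unfold dt
  simp only
  by_cases hs : (s : ℂ) = 0
  · have : normSq (s' : ℂ) = 0 := by rw [← b4, hs]; simp
    have hs' : (s' : ℂ) = 0 := normSq_eq_zero.1 this
    rw [hs, hs']; ring
  · have hs' : (s' : ℂ) ≠ 0 := by
      intro h0
      apply hs
      apply normSq_eq_zero.1
      rw [b4, h0]; simp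
    have c1 : (s : ℂ) * (starRingEnd ℂ) (s : ℂ) = (s' : ℂ) * (starRingEnd ℂ) (s' : ℂ) := by
      rw [mul_conj, mul_conj, b4]
    have d1 : (starRingEnd ℂ) (s : ℂ) ≠ 0 := by simpa using hs
    have d2 : (starRingEnd ℂ) (s' : ℂ) ≠ 0 := by simpa using hs'
    have : ((r : ℂ) * s' - s * r') * ((starRingEnd ℂ) (s : ℂ) * (starRingEnd ℂ) (s' : ℂ)) = 0 := by
      linear_combination (s' : ℂ) * (starRingEnd ℂ) (s' : ℂ) * b - (r' : ℂ) * (starRingEnd ℂ) (s' : ℂ) * c1
    exact (mul_eq_zero.1 this).resolve_right (mul_ne_zero d1 d2)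

/-- a nonempty set of Gaussian vectors has a vector of least height -/
lemma H_min {S : Set Vc} (hS : ∀ v ∈ S, GV v) (hne : S.Nonempty) : ∃ v ∈ S, ∀ w ∈ S, H v ≤ H w := by
  obtain ⟨v0, hv0⟩ := hne
  obtain ⟨R, hR⟩ : ∃ R : ℝ, 4 * tau ^ 3 * H v0 ≤ del * R ∧ 4 * H v0 ≤ del * R := by
    refine ⟨max (4 * tau ^ 3 * H v0 / del) (4 * H v0 / del), ?_, ?_⟩
    · have := le_max_left (4 * tau ^ 3 * H v0 / del) (4 * H v0 / del)
      rw [div_le_iff₀ del_pos] at this
      linarith
    · have := le_max_right (4 * tau ^ 3 * H v0 / del) (4 * H v0 / del)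
      rw [div_le_iff₀ del_pos] at this
      linarith
  have hfin : {v | v ∈ S ∧ H v ≤ H v0}.Finite := by
    have h1 := ((fin_gauss R).prod (fin_gauss R)).image
      (fun p : GaussianInt × GaussianInt => (((p.1 : ℂ), (p.2 : ℂ)) : Vc))
    refine h1.subset ?_
    rintro v ⟨hvS, hvH⟩
    obtain ⟨r, s, rfl⟩ := hS v hvS
    refine ⟨(r, s), ⟨?_, ?_⟩, rfl⟩
    · have h2 := H_ge1 ((r : ℂ), (s : ℂ))
      have h3 : 0 < tau ^ 3 := by have := tau1; positivity
      have h4 : del * normSq (r : ℂ) ≤ del * R := by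
        refine h2.trans (le_trans ?_ hR.1)
        gcongr
      exact le_of_mul_le_mul_left h4 del_pos
    · have h2 := H_ge2 ((r : ℂ), (s : ℂ))
      have h4 : del * normSq (s : ℂ) ≤ del * R := by
        refine h2.trans (le_trans ?_ hR.2)
        gcongr
      exact le_of_mul_le_mul_left h4 del_pos
  obtain ⟨v, ⟨hv1, hv2⟩, hmin⟩ := Set.exists_min_image _ H hfin ⟨v0, hv0, le_rfl⟩
  refine ⟨v, hv1, fun w hw => ?_⟩
  by_cases h : H w ≤ H v0
  · exact hmin w ⟨hw, h⟩
  · push Not at h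
    exact hv2.trans h.le

end Pool.Agent.X221.AP
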