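import Pool.Agent.X221.AP.Ping

set_option autoImplicit false

open OnePoint Matrix Complex Topology Filter

namespace Pool.Agent.X221.AP

def gamZ : Matrix.SpecialLinearGroup (Fin 2) ℤ := ⟨!![2, 3; 1, 2], by
  rw [Matrix.det_fin_two_of]; norm_num⟩

/-- the hyperbolic element -/
noncomputable def gam : G := embZ gamZ

lemma act_gam (v : Vc) : act gam v = (2 * v.1 + 3 * v.2, v.1 + 2 * v.2) := by
  unfold act gam
  simp only [embZ_apply]
  simp [gamZ]

lemma act_gam_inv (v : Vc) : act gam⁻¹ v = (2 * v.1 - 3 * v.2, -v.1 + 2 * v.2) := by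
  have h : act gam (2 * v.1 - 3 * v.2, -v.1 + 2 * v.2) = v := by
    rw [act_gam]
    ext <;> simp <;> ring
  conv_lhs => rw [← h]
  rw [act_inv_act]

lemma SC_gam : SC gam := by
  refine SC_of_trace (t := 4) (by norm_num) fun u => ?_
  rw [act_gam, act_gam_inv]
  ext <;> simp <;> ring

noncomputable def s3 : ℝ := Real.sqrt 3
lemma s3_sq : s3 ^ 2 = 3 := Real.sq_sqrt (by norm_num)
lemma s3_pos : 0 < s3 := Real.sqrt_pos.2 (by norm_num)
lemma s3_lt : s3 < 2 := by
  have := s3_sq; have := s3_pos; nlinarith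

noncomputable def f1 (v : Vc) : ℝ := q 1 0 0 (-3) v
noncomputable def f2 (v : Vc) : ℝ := q 1 0 (2 * s3) 3 v

lemma f2_eq (v : Vc) : f2 v = normSq (v.1 + (s3 : ℂ) * v.2) := by
  have := s3_sq
  unfold f2 q ss rr
  simp only [normSq_apply, add_re, add_im, mul_re, mul_im, ofReal_re, ofReal_im]
  linear_combination (-(v.2.re * v.2.re + v.2.im * v.2.im)) * this

noncomputable def la : ℝ := (2 + s3) ^ 2

lemma la_gt : 1 < la := by
  unfold la; have := s3_pos; nlinarith

lemma f1_gam (v : Vc) : f1 (act gam v) = f1 v := by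
  rw [act_gam]
  unfold f1 q ss rr
  simp only [normSq_apply, add_re, add_im, mul_re, mul_im, re_ofNat, im_ofNat]
  ring

lemma f2_gam (v : Vc) : f2 (act gam v) = la * f2 v := by
  rw [act_gam]
  have h := s3_sq
  have h3 : s3 ^ 3 = 3 * s3 := by rw [pow_succ, h]
  unfold f2 q ss rr la
  simp only [normSq_apply, add_re, add_im, mul_re, mul_im, re_ofNat, im_ofNat]
  linear_combination (-(8 * (v.1.re * v.2.re + v.1.im * v.2.im) + (v.1.re ^ 2 + v.1.im ^ 2) +
    3 * (v.2.re ^ 2 + v.2.im ^ 2))) * h + (-2 * (v.1.re * v.2.re + v.1.im * v.2.im)) * h3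

/-- the circles `Re (α conj β) = c |β|²` -/
noncomputable def Cz (c : ℝ) : Set X := Zq (1 - c) 0 (-(2 * s3 * c)) (-3 - 3 * c)

lemma mem_Cz {c : ℝ} {z : X} : z ∈ Cz c ↔ f1 (rep z) = c * f2 (rep z) := by
  unfold Cz Zq
  rw [Set.mem_ofPred_eq]
  have : q (1 - c) 0 (-(2 * s3 * c)) (-3 - 3 * c) (rep z) = f1 (rep z) - c * f2 (rep z) := by
    unfold f1 f2 q; ring
  rw [this, sub_eq_zero]

lemma gam_Cz (c : ℝ) : im gam (Cz (la * c)) = Cz c := by
  refine im_Zq _ 1 one_ne_zero fun v => ?_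
  have e : ∀ c v, q (1 - c) 0 (-(2 * s3 * c)) (-3 - 3 * c) v = f1 v - c * f2 v := by
    intro c v; unfold f1 f2 q; ring
  rw [e, e, f1_gam, f2_gam]
  ring

lemma gam_zpow_Cz (n : ℤ) (c : ℝ) : im (gam ^ n) (Cz c) = Cz (la ^ (-n) * c) := by
  have hla : la ≠ 0 := by have := la_gt; linarith
  have h1 : ∀ c, im gam (Cz c) = Cz (la⁻¹ * c) := by
    intro c
    have := gam_Cz (la⁻¹ * c)
    rwa [← mul_assoc, mul_inv_cancel₀ hla, one_mul] at this
  have h2 : ∀ c, im gam⁻¹ (Cz c) = Cz (la * c) := fun c => inv_of (gam_Cz c)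
  induction n using Int.induction_on with
  | zero => simp
  | succ n ih =>
    rw [_root_.zpow_add, zpow_one, ← (Commute.self_zpow gam n).eq, im_mul, ih, h1]
    congr 1
    rw [← mul_assoc, neg_add, zpow_add₀ hla, _root_.zpow_neg_one]
    ring
  | pred n ih =>
    rw [_root_.zpow_sub, zpow_one]
    have : gam ^ (-(n : ℤ)) * gam⁻¹ = gam⁻¹ * gam ^ (-(n : ℤ)) :=
      ((Commute.self_zpow gam (-(n : ℤ))).inv_left).eq.symm
    rw [this, im_mul, ih, h2]
    congr 1
    rw [← mul_assoc, show -(-(n : ℤ) - 1) = 1 + - -(n : ℤ) by ring, zpow_add₀ hla, zpow_one]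

noncomputable def c0 : ℝ := 1 / (1 + 2 * s3)

lemma c0_pos : 0 < c0 := by unfold c0; have := s3_pos; positivity
lemma c0_lt : c0 < 1 := by
  unfold c0
  have := s3_pos
  rw [div_lt_one (by positivity)]
  linarith

/-! ### no Gaussian points -/

lemma irr3 {a b : ℤ} (h : (a : ℝ) = s3 * b) : b = 0 := by
  by_contra hb
  have hirr : Irrational (Real.sqrt 3) := by
    have := Nat.Prime.irrational_sqrt (show Nat.Prime 3 by norm_num)
    exact_mod_cast this
  apply hirr
  refine ⟨(a : ℚ) / b, ?_⟩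
  have hb' : (b : ℝ) ≠ 0 := by exact_mod_cast hb
  push_cast
  rw [h]
  unfold s3
  field_simp

lemma mod3 {a b : ℤ} (h : (3 : ℤ) ∣ a ^ 2 + b ^ 2) : (3 : ℤ) ∣ a ∧ (3 : ℤ) ∣ b := by
  have ha : a % 3 = 0 ∨ a % 3 = 1 ∨ a % 3 = 2 := by omega
  have hb : b % 3 = 0 ∨ b % 3 = 1 ∨ b % 3 = 2 := by omega
  have h' : (a ^ 2 + b ^ 2) % 3 = 0 := Int.emod_eq_zero_of_dvd h
  have h2 : ((a % 3) ^ 2 + (b % 3) ^ 2) % 3 = 0 := by
    rw [← h']; simp [Int.add_emod, pow_two, Int.mul_emod]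
  rcases ha with ha | ha | ha <;> rcases hb with hb | hb | hb <;> rw [ha, hb] at h2 <;>
    norm_num at h2
  exact ⟨Int.dvd_of_emod_eq_zero ha, Int.dvd_of_emod_eq_zero hb⟩

lemma three_sq (n : ℕ) : ∀ a b c d : ℤ, (c ^ 2 + d ^ 2).toNat ≤ n →
    a ^ 2 + b ^ 2 = 3 * (c ^ 2 + d ^ 2) → c = 0 ∧ d = 0 := by
  induction n using Nat.strong_induction_on with
  | _ n ih =>
    intro a b c d hn h
    by_cases h0 : c ^ 2 + d ^ 2 = 0
    · constructor
      · have : c ^ 2 = 0 := by nlinarith [sq_nonneg c, sq_nonneg d]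
        exact pow_eq_zero_iff (two_ne_zero) |>.1 this
      · have : d ^ 2 = 0 := by nlinarith [sq_nonneg c, sq_nonneg d]
        exact pow_eq_zero_iff (two_ne_zero) |>.1 this
    · obtain ⟨⟨a', ha⟩, ⟨b', hb⟩⟩ := mod3 (a := a) (b := b) ⟨_, h⟩
      have h1 : c ^ 2 + d ^ 2 = 3 * (a' ^ 2 + b' ^ 2) := by
        rw [ha, hb] at h; linarith
      obtain ⟨⟨c', hc⟩, ⟨d', hd⟩⟩ := mod3 (a := c) (b := d) ⟨_, h1⟩
      have h2 : a' ^ 2 + b' ^ 2 = 3 * (c' ^ 2 + d' ^ 2) := by
        rw [hc, hd] at h1; linarith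
      have hpos : 0 < c ^ 2 + d ^ 2 := by
        rcases (add_nonneg (sq_nonneg c) (sq_nonneg d)).eq_or_lt with h3 | h3
        · exact absurd h3.symm h0
        · exact h3
      have h4 : c ^ 2 + d ^ 2 = 9 * (c' ^ 2 + d' ^ 2) := by rw [hc, hd]; ring
      have h5 : (c' ^ 2 + d' ^ 2).toNat < n := by
        have : 0 ≤ c' ^ 2 + d' ^ 2 := by positivity
        omega
      obtain ⟨e1, e2⟩ := ih _ h5 a' b' c' d' le_rfl h2
      rw [hc, hd, e1, e2]
      exact ⟨by ring, by ring⟩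

lemma GV_f2 {v : Vc} (hv : GV v) (h0 : v ≠ 0) : f2 v ≠ 0 := by
  obtain ⟨r, s, rfl⟩ := hv
  rw [f2_eq]
  intro h
  have h1 := normSq_eq_zero.1 h
  have hre := congrArg Complex.re h1
  have him := congrArg Complex.im h1
  simp only [add_re, add_im, mul_re, mul_im, ofReal_re, ofReal_im, zero_re, zero_im, zero_mul,
    sub_zero, add_zero, ← GaussianInt.intCast_re, ← GaussianInt.intCast_im] at hre him
  have a1 : s.re = 0 := irr3 (a := -r.re) (by push_cast; linarith)
  have a2 : s.im = 0 := irr3 (a := -r.im) (by push_cast; linarith)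
  rw [a1] at hre
  rw [a2] at him
  simp at hre him
  apply h0
  ext
  · show (r : ℂ) = 0
    apply Complex.ext
    · simpa using hre
    · simpa using him
  · show (s : ℂ) = 0
    apply Complex.ext
    · rw [← GaussianInt.intCast_re, a1]; simp
    · rw [← GaussianInt.intCast_im, a2]; simp

lemma GV_f1 {v : Vc} (hv : GV v) (h0 : v ≠ 0) : f1 v ≠ 0 := by
  obtain ⟨r, s, rfl⟩ := hv
  intro h
  unfold f1 q at h
  simp only [normSq_apply, ← GaussianInt.intCast_re, ← GaussianInt.intCast_im] at h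
  have h1 : r.re ^ 2 + r.im ^ 2 = 3 * (s.re ^ 2 + s.im ^ 2) := by
    have : ((r.re ^ 2 + r.im ^ 2 : ℤ) : ℝ) = ((3 * (s.re ^ 2 + s.im ^ 2) : ℤ) : ℝ) := by
      push_cast; linarith
    exact_mod_cast this
  obtain ⟨a1, a2⟩ := three_sq _ _ _ _ _ le_rfl h1
  have h2 : r.re ^ 2 + r.im ^ 2 = 0 := by rw [h1, a1, a2]; ring
  have b1 : r.re = 0 := by
    have : r.re ^ 2 = 0 := by nlinarith [sq_nonneg r.re, sq_nonneg r.im]
    exact pow_eq_zero_iff (two_ne_zero) |>.1 this
  have b2 : r.im = 0 := by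
    have : r.im ^ 2 = 0 := by nlinarith [sq_nonneg r.re, sq_nonneg r.im]
    exact pow_eq_zero_iff (two_ne_zero) |>.1 this
  apply h0
  have hr : r = 0 := Zsqrtd.ext b1 b2
  have hs : s = 0 := Zsqrtd.ext a1 a2
  rw [hr, hs]; simp

lemma GV_Cz {v : Vc} (hv : GV v) (h0 : v ≠ 0) : f1 v ≠ c0 * f2 v := by
  obtain ⟨r, s, rfl⟩ := hv
  intro h
  have hs3 := s3_sq
  have hp := s3_pos
  have h1 : (1 + 2 * s3) * f1 ((r : ℂ), (s : ℂ)) = f2 ((r : ℂ), (s : ℂ)) := by
    rw [h]; unfold c0; field_simp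
  unfold f1 f2 q ss rr at h1
  simp only [normSq_apply, ← GaussianInt.intCast_re, ← GaussianInt.intCast_im] at h1
  have h2 : ((r.re * r.re + r.im * r.im - 3 * (s.re * s.re + s.im * s.im) -
      (r.re * s.re + r.im * s.im) : ℤ) : ℝ) = s3 * ((s.re * s.re + s.im * s.im : ℤ) : ℝ) := by
    push_cast
    have h3 : (2 * s3) * (((r.re : ℝ) * r.re + r.im * r.im - 3 * (s.re * s.re + s.im * s.im) -
      (r.re * s.re + r.im * s.im)) - s3 * (s.re * s.re + s.im * s.im)) = 0 := by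
      linear_combination h1 - 2 * ((s.re : ℝ) * s.re + s.im * s.im) * hs3
    have h4 := (mul_eq_zero.1 h3).resolve_left (by positivity)
    linarith
  have h5 := irr3 h2
  have a1 : s.re = 0 := by
    have : s.re * s.re = 0 := by nlinarith [mul_self_nonneg s.re, mul_self_nonneg s.im]
    exact mul_self_eq_zero.1 this
  have a2 : s.im = 0 := by
    have : s.im * s.im = 0 := by nlinarith [mul_self_nonneg s.re, mul_self_nonneg s.im]
    exact mul_self_eq_zero.1 this
  have h6 : r.re * r.re + r.im * r.im = 0 := by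
    have : r.re * r.re + r.im * r.im - 3 * (s.re * s.re + s.im * s.im) -
      (r.re * s.re + r.im * s.im) = 0 := by
      have : ((r.re * r.re + r.im * r.im - 3 * (s.re * s.re + s.im * s.im) -
        (r.re * s.re + r.im * s.im) : ℤ) : ℝ) = 0 := by rw [h2, h5]; simp
      exact_mod_cast this
    rw [a1, a2] at this
    linarith
  have b1 : r.re = 0 := by
    have : r.re * r.re = 0 := by nlinarith [mul_self_nonneg r.re, mul_self_nonneg r.im]
    exact mul_self_eq_zero.1 this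
  have b2 : r.im = 0 := by
    have : r.im * r.im = 0 := by nlinarith [mul_self_nonneg r.re, mul_self_nonneg r.im]
    exact mul_self_eq_zero.1 this
  apply h0
  have hr : r = 0 := Zsqrtd.ext b1 b2
  have hs : s = 0 := Zsqrtd.ext a1 a2
  rw [hr, hs]; simp

/-! ### the closed set containing all translates -/

def Es : Set ℝ := {x | x = 0 ∨ ∃ m : ℤ, x = la ^ m * c0}

lemma closed_Es : IsClosed Es := by
  rw [← isOpen_compl_iff, isOpen_iff_mem_nhds]
  intro x hx
  have hla := la_gt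
  have hc := c0_pos
  simp only [Set.mem_compl_iff, Es, Set.mem_ofPred_eq, not_or, not_exists] at hx
  obtain ⟨h0, h1⟩ := hx
  rcases lt_or_gt_of_ne h0 with h | h
  · filter_upwards [Iio_mem_nhds h] with y hy
    simp only [Set.mem_compl_iff, Es, Set.mem_ofPred_eq, not_or, not_exists]
    refine ⟨ne_of_lt hy, fun m hm => ?_⟩
    have : 0 < la ^ m * c0 := by positivity
    rw [← hm] at this
    exact absurd hy (not_lt.2 this.le)
  · obtain ⟨n, hn1, hn2⟩ := exists_mem_Ico_zpow (div_pos h hc) hla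
    have h2 : la ^ n * c0 < x := by
      rw [le_div_iff₀ hc] at hn1
      exact lt_of_le_of_ne hn1 (fun he => h1 n he.symm)
    have h3 : x < la ^ (n + 1) * c0 := by
      rwa [div_lt_iff₀ hc] at hn2
    filter_upwards [Ioo_mem_nhds h2 h3] with y hy
    simp only [Set.mem_compl_iff, Es, Set.mem_ofPred_eq, not_or, not_exists]
    refine ⟨?_, fun m hm => ?_⟩
    · rintro rfl
      have : 0 < la ^ n * c0 := by positivity
      exact absurd hy.1 (not_lt.2 this.le)
    · rw [hm] at hy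
      have g1 : la ^ n < la ^ m := lt_of_mul_lt_mul_right hy.1 hc.le
      have g2 : la ^ m < la ^ (n + 1) := lt_of_mul_lt_mul_right hy.2 hc.le
      rw [zpow_lt_zpow_iff_right₀ hla] at g1 g2
      omega

noncomputable def g1 (z : X) : ℝ := f1 (rep z) / n2 (rep z)
noncomputable def g2 (z : X) : ℝ := f2 (rep z) / n2 (rep z)

lemma cont_q (A e1 e2 D : ℝ) : Continuous (fun z : X => q A e1 e2 D (rep z) / n2 (rep z)) := by
  refine cont_ind (fun v => q A e1 e2 D v / n2 v) ?_ ?_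
  · apply ContinuousOn.div
    · unfold q ss rr; fun_prop
    · exact cont_n2.continuousOn
    · intro v hv; exact (n2_pos hv).ne'
  · intro c hc v hv
    have h1 : normSq c ≠ 0 := by simpa using hc
    have h2 := (n2_pos hv).ne'
    simp only [q_smul, n2_smul]
    field_simp

lemma cont_g1 : Continuous g1 := cont_q _ _ _ _
lemma cont_g2 : Continuous g2 := cont_q _ _ _ _

def Kb : Set X := {z | g2 z = 0 ∨ g1 z / g2 z ∈ Es}

lemma closed_Kb : IsClosed Kb := by
  rw [← isOpen_compl_iff]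
  have h1 : IsOpen {z : X | g2 z ≠ 0} := isOpen_ne_fun cont_g2 continuous_const
  have h2 : ContinuousOn (fun z : X => g1 z / g2 z) {z : X | g2 z ≠ 0} :=
    cont_g1.continuousOn.div cont_g2.continuousOn fun z hz => hz
  have h3 := h2.isOpen_inter_preimage h1 closed_Es.isOpen_compl
  have h4 : Kbᶜ = {z : X | g2 z ≠ 0} ∩ (fun z : X => g1 z / g2 z) ⁻¹' Esᶜ := by
    ext z
    simp only [Kb, Set.mem_compl_iff, Set.mem_ofPred_eq, not_or, Set.mem_inter_iff,
      Set.mem_preimage, ne_eq]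
  rw [h4]
  exact h3

lemma div_g (z : X) (h : f2 (rep z) ≠ 0) : g1 z / g2 z = f1 (rep z) / f2 (rep z) := by
  have := (n2_pos (rep_ne z)).ne'
  unfold g1 g2
  field_simp

lemma Cz_sub (m : ℤ) : Cz (la ^ m * c0) ⊆ Kb := by
  intro z hz
  rw [mem_Cz] at hz
  by_cases h : f2 (rep z) = 0
  · left; unfold g2; rw [h, zero_div]
  · right
    rw [div_g z h, hz, mul_div_cancel_right₀ _ h]
    exact Or.inr ⟨m, rfl⟩

lemma f1_smul (c : ℂ) (v : Vc) : f1 (c • v) = normSq c * f1 v := q_smul _ _ _ _ _ _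
lemma f2_smul (c : ℂ) (v : Vc) : f2 (c • v) = normSq c * f2 v := q_smul _ _ _ _ _ _

lemma GV_act {v : Vc} (hv : GV v) (k : Matrix.SpecialLinearGroup (Fin 2) GaussianInt) :
    GV (act (emb k) v) := by
  obtain ⟨r, s, rfl⟩ := hv
  refine ⟨k 0 0 * r + k 0 1 * s, k 1 0 * r + k 1 1 * s, ?_⟩
  unfold act
  simp [emb_apply]

lemma f_pt {v : Vc} (hv : v ≠ 0) : ∃ c : ℝ, c ≠ 0 ∧ f1 v = c * f1 (rep (pt v)) ∧
    f2 v = c * f2 (rep (pt v)) := by
  obtain ⟨c, hc, h⟩ := exists_smul_rep hv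
  refine ⟨normSq c, (normSq_pos.2 hc).ne', ?_, ?_⟩
  · conv_lhs => rw [h, f1_smul]
  · conv_lhs => rw [h, f2_smul]

lemma gam_emb : ∃ k, gam = emb k := embZ_mem gamZ

/-- Gaussian points avoid the closed set -/
lemma GV_Kb {v : Vc} (hv : GV v) (h0 : v ≠ 0) : pt v ∉ Kb := by
  obtain ⟨c, hc, e1, e2⟩ := f_pt h0
  have hf2 : f2 (rep (pt v)) ≠ 0 := by
    intro h; rw [h, mul_zero] at e2; exact GV_f2 hv h0 e2
  have hf1 : f1 (rep (pt v)) ≠ 0 := by
    intro h; rw [h, mul_zero] at e1; exact GV_f1 hv h0 e1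
  rintro (h | h)
  · unfold g2 at h
    have := (n2_pos (rep_ne (pt v))).ne'
    rw [div_eq_zero_iff] at h
    rcases h with h | h
    · exact hf2 h
    · exact this h
  · rw [div_g _ hf2] at h
    rcases h with h | ⟨m, hm⟩
    · rw [div_eq_zero_iff] at h
      rcases h with h | h
      · exact hf1 h
      · exact hf2 h
    · rw [div_eq_iff hf2] at hm
      have h1 : pt v ∈ Cz (la ^ m * c0) := mem_Cz.2 hm
      have h2 : im (gam ^ (-m)) (Cz c0) = Cz (la ^ m * c0) := by rw [gam_zpow_Cz, neg_neg]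
      rw [← h2, mem_im, ← _root_.zpow_neg, neg_neg, smul_pt _ h0] at h1
      obtain ⟨k, hk⟩ := gam_emb
      have h3 : GV (act (gam ^ m) v) := by
        rw [hk, ← map_zpow]
        exact GV_act hv _
      have h4 : act (gam ^ m) v ≠ 0 := act_ne h0
      rw [mem_Cz] at h1
      obtain ⟨d, hd, d1, d2⟩ := f_pt h4
      apply GV_Cz h3 h4
      rw [d1, d2, h1]; ring

/-- Gaussian points are not fixed by the hyperbolic element -/
lemma GV_gam {v : Vc} (hv : GV v) (h0 : v ≠ 0) : gam • pt v ≠ pt v := by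
  intro h
  rw [smul_pt _ h0, pt_eq_iff (act_ne h0) h0, act_gam] at h
  obtain ⟨r, s, rfl⟩ := hv
  unfold dt at h
  simp only at h
  have h1 : ((r * r - 3 * (s * s) : GaussianInt) : ℂ) = 0 := by
    push_cast
    simp only [map_sub, map_mul, map_ofNat]
    linear_combination -h
  have h2 : r * r = 3 * (s * s) := by
    have := GaussianInt.toComplex_eq_zero.1 h1
    exact sub_eq_zero.1 this
  have h3 : (normSq (r : ℂ)) ^ 2 = 9 * (normSq (s : ℂ)) ^ 2 := by
    have h4 : (r : ℂ) * r = 3 * ((s : ℂ) * s) := by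
      have := congrArg (fun x : GaussianInt => (x : ℂ)) h2
      have e3 : ((3 : GaussianInt) : ℂ) = 3 := map_ofNat GaussianInt.toComplex 3
      simp only [map_mul, e3] at this
      exact this
    have := congrArg normSq h4
    rw [normSq_mul, normSq_mul, normSq_mul] at this
    have h9 : normSq (3 : ℂ) = 9 := by norm_num [normSq_apply]
    rw [h9] at this
    linarith
  have h5 : normSq (r : ℂ) = 3 * normSq (s : ℂ) := by
    have a1 := normSq_nonneg (r : ℂ)
    have a2 := normSq_nonneg (s : ℂ)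
    nlinarith [sq_nonneg (normSq (r : ℂ) - 3 * normSq (s : ℂ))]
  apply GV_f1 ⟨r, s, rfl⟩ h0
  unfold f1 q
  simp only
  rw [h5]; ring

end Pool.Agent.X221.AP
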