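import Pool.Agent.X221.AP.Quad

set_option autoImplicit false

open OnePoint Matrix Complex Topology Filter

namespace Pool.Agent.X221.AP

noncomputable def Cc (a : ℝ) : Set X := Zq 1 (-1) (-2 * a) (a ^ 2)

def Fam : Set (Set (Set X)) :=
  {F | R0 ∈ F ∧ Ln 1 ∈ F ∧ Cc 0 ∈ F ∧ Cc 1 ∈ F ∧
    ∀ S ∈ F, ∀ T ∈ F, ∀ U ∈ F, ∀ V : Set X, IsC V → Tg S T → Tg T U → Tg S U → S ∩ T ∩ U = ∅ →
      Tg V S → Tg V T → Tg V U → V ∈ F}

/-- the packing -/
def P : Set (Set X) := ⋂₀ Fam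

lemma mem_Cc {a : ℝ} {w : ℂ} : (w : X) ∈ Cc a ↔ (w.re - a) ^ 2 + w.im ^ 2 = w.im := by
  unfold Cc; rw [mem_Zq_some]
  constructor <;> intro h <;> linarith

lemma infty_Cc {a : ℝ} : (OnePoint.infty : X) ∉ Cc a := by
  unfold Cc; rw [mem_Zq_infty]; norm_num

lemma mem_R0_some {w : ℂ} : (w : X) ∈ R0 ↔ w.im = 0 := by
  rw [R0_Ln, mem_Ln_some]

lemma infty_R0 : (OnePoint.infty : X) ∈ R0 := Or.inl rfl

lemma tg_R_L : Tg R0 (Ln 1) := by
  refine ⟨OnePoint.infty, ⟨infty_R0, infty_mem_Ln _⟩, ?_⟩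
  rintro z ⟨h1, h2⟩
  induction z using OnePoint.rec with
  | infty => rfl
  | coe w =>
    rw [mem_R0_some] at h1
    rw [mem_Ln_some] at h2
    rw [h1] at h2; norm_num at h2

lemma tg_R_C (a : ℝ) : Tg R0 (Cc a) := by
  refine ⟨((⟨a, 0⟩ : ℂ) : X), ⟨mem_R0_some.2 rfl, mem_Cc.2 (by simp)⟩, ?_⟩
  rintro z ⟨h1, h2⟩
  induction z using OnePoint.rec with
  | infty => exact absurd h2 infty_Cc
  | coe w =>
    rw [mem_R0_some] at h1
    rw [mem_Cc, h1] at h2
    congr 1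
    apply Complex.ext
    · have : (w.re - a) ^ 2 = 0 := by linarith
      have := pow_eq_zero_iff (two_ne_zero) |>.1 this
      simp only; linarith
    · simpa using h1

lemma tg_L_C (a : ℝ) : Tg (Ln 1) (Cc a) := by
  refine ⟨((⟨a, 1⟩ : ℂ) : X), ⟨mem_Ln_some.2 rfl, mem_Cc.2 (by simp)⟩, ?_⟩
  rintro z ⟨h1, h2⟩
  induction z using OnePoint.rec with
  | infty => exact absurd h2 infty_Cc
  | coe w =>
    rw [mem_Ln_some] at h1
    rw [mem_Cc, h1] at h2
    congr 1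
    apply Complex.ext
    · have : (w.re - a) ^ 2 = 0 := by linarith
      have := pow_eq_zero_iff (two_ne_zero) |>.1 this
      simp only; linarith
    · simpa using h1

lemma tg_C_C (a : ℝ) : Tg (Cc a) (Cc (a + 1)) := by
  refine ⟨((⟨a + 1 / 2, 1 / 2⟩ : ℂ) : X), ⟨mem_Cc.2 (by norm_num), mem_Cc.2 (by ring)⟩, ?_⟩
  rintro z ⟨h1, h2⟩
  induction z using OnePoint.rec with
  | infty => exact absurd h2 infty_Cc
  | coe w =>
    rw [mem_Cc] at h1 h2
    have e1 : w.re = a + 1 / 2 := by nlinarith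
    rw [e1] at h1
    congr 1
    apply Complex.ext
    · simpa using e1
    · have : (w.im - 1 / 2) ^ 2 = 0 := by nlinarith
      have := pow_eq_zero_iff (two_ne_zero) |>.1 this
      simp only; linarith

lemma int_RLC (a : ℝ) : R0 ∩ Ln 1 ∩ Cc a = ∅ := by
  ext z
  simp only [Set.mem_inter_iff, Set.mem_empty_iff_false, iff_false, not_and]
  rintro ⟨h1, h2⟩ h3
  induction z using OnePoint.rec with
  | infty => exact absurd h3 infty_Cc
  | coe w =>
    rw [mem_R0_some] at h1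
    rw [mem_Ln_some, h1] at h2
    norm_num at h2

lemma int_RCC (a : ℝ) : R0 ∩ Cc a ∩ Cc (a + 1) = ∅ := by
  ext z
  simp only [Set.mem_inter_iff, Set.mem_empty_iff_false, iff_false, not_and]
  rintro ⟨h1, h2⟩ h3
  induction z using OnePoint.rec with
  | infty => exact absurd h3 infty_Cc
  | coe w =>
    rw [mem_R0_some] at h1
    rw [mem_Cc, h1] at h2 h3
    nlinarith

lemma int_LCC (a : ℝ) : Ln 1 ∩ Cc a ∩ Cc (a + 1) = ∅ := by
  ext z
  simp only [Set.mem_inter_iff, Set.mem_empty_iff_false, iff_false, not_and]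
  rintro ⟨h1, h2⟩ h3
  induction z using OnePoint.rec with
  | infty => exact absurd h3 infty_Cc
  | coe w =>
    rw [mem_Ln_some] at h1
    rw [mem_Cc, h1] at h2 h3
    nlinarith

lemma Cc_F0 (n : ℤ) : Cc n ∈ F0 := by
  have := cn_mem n 1 (by norm_num)
  unfold Cc
  simpa using this

/-! ### the induction principle -/

lemma P_base : R0 ∈ P ∧ Ln 1 ∈ P ∧ Cc 0 ∈ P ∧ Cc 1 ∈ P :=
  ⟨fun _ hF => hF.1, fun _ hF => hF.2.1, fun _ hF => hF.2.2.1, fun _ hF => hF.2.2.2.1⟩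

lemma P_step {S T U V : Set X} (hS : S ∈ P) (hT : T ∈ P) (hU : U ∈ P) (hV : IsC V)
    (st : Tg S T) (tu : Tg T U) (su : Tg S U) (h0 : S ∩ T ∩ U = ∅) (vs : Tg V S) (vt : Tg V T)
    (vu : Tg V U) : V ∈ P :=
  fun F hF => hF.2.2.2.2 S (hS F hF) T (hT F hF) U (hU F hF) V hV st tu su h0 vs vt vu

lemma P_ind {Φ : Set X → Prop} (h1 : Φ R0) (h2 : Φ (Ln 1)) (h3 : Φ (Cc 0)) (h4 : Φ (Cc 1))
    (hs : ∀ S T U V : Set X, S ∈ P → T ∈ P → U ∈ P → V ∈ P → Φ S → Φ T → Φ U → IsC V →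
      Tg S T → Tg T U → Tg S U → S ∩ T ∩ U = ∅ → Tg V S → Tg V T → Tg V U → Φ V) :
    ∀ V ∈ P, Φ V := by
  intro V hV
  have : {V | V ∈ P ∧ Φ V} ∈ Fam := by
    refine ⟨⟨P_base.1, h1⟩, ⟨P_base.2.1, h2⟩, ⟨P_base.2.2.1, h3⟩, ⟨P_base.2.2.2, h4⟩, ?_⟩
    rintro S ⟨hS, fS⟩ T ⟨hT, fT⟩ U ⟨hU, fU⟩ V hV st tu su h0 vs vt vu
    have hVP := P_step hS hT hU hV st tu su h0 vs vt vu
    exact ⟨hVP, hs S T U V hS hT hU hVP fS fT fU hV st tu su h0 vs vt vu⟩
  exact (hV _ this).2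

lemma Cc_neg1 : Cc (-1) ∈ P := by
  have h := tg_C_C (-1)
  rw [neg_add_cancel] at h
  exact P_step P_base.1 P_base.2.1 P_base.2.2.1 (by exact_mod_cast F0.isC (Cc_F0 (-1))) tg_R_L (tg_L_C 0)
    (tg_R_C 0) (int_RLC 0) (tg_R_C _).symm (tg_L_C _).symm h

lemma Cc_two : Cc 2 ∈ P := by
  have h := tg_C_C 1
  norm_num at h
  exact P_step P_base.1 P_base.2.1 P_base.2.2.2 (by exact_mod_cast F0.isC (Cc_F0 2)) tg_R_L (tg_L_C 1)
    (tg_R_C 1) (int_RLC 1) (tg_R_C _).symm (tg_L_C _).symm h.symm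

lemma P_im {g : G} (h1 : im g R0 ∈ P) (h2 : im g (Ln 1) ∈ P) (h3 : im g (Cc 0) ∈ P)
    (h4 : im g (Cc 1) ∈ P) : ∀ V ∈ P, im g V ∈ P := by
  refine P_ind (Φ := fun V => im g V ∈ P) h1 h2 h3 h4 ?_
  intro S T U V _ _ _ _ fS fT fU hV st tu su h0 vs vt vu
  exact P_step fS fT fU (hV.im g) (st.im g) (tu.im g) (su.im g)
    (by rw [← im_inter, ← im_inter, h0, im_empty]) (vs.im g) (vt.im g) (vu.im g)

/-- the symmetry group -/
def SymP : Subgroup G where
  carrier := {g | ∀ V, V ∈ P ↔ im g V ∈ P}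
  mul_mem' := by
    intro a b ha hb V
    rw [im_mul]
    exact (hb V).trans (ha _)
  one_mem' := by intro V; simp
  inv_mem' := by
    intro g hg V
    have h := hg (im g⁻¹ V)
    rw [im_im_inv] at h
    exact h.symm

lemma mem_SymP {g : G} (h : ∀ V ∈ P, im g V ∈ P) (h' : ∀ V ∈ P, im g⁻¹ V ∈ P) : g ∈ SymP := by
  intro V
  constructor
  · exact h V
  · intro hV
    have := h' _ hV
    rwa [im_inv_im] at this

/-! ### the generators -/

lemma act_T (v : Vc) : act (embZ ModularGroup.T) v = (v.1 + v.2, v.2) := by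
  unfold act
  simp only [embZ_apply]
  simp [ModularGroup.T]

lemma act_S (v : Vc) : act (embZ ModularGroup.S) v = (-v.2, v.1) := by
  unfold act
  simp only [embZ_apply]
  simp [ModularGroup.S]

/-- the half turn `z ↦ -z + i` -/
def uu : Matrix.SpecialLinearGroup (Fin 2) GaussianInt :=
  ⟨!![⟨0, -1⟩, ⟨-1, 0⟩; ⟨0, 0⟩, ⟨0, 1⟩], by
    rw [Matrix.det_fin_two_of]
    apply Zsqrtd.ext <;> simp [Zsqrtd.re_mul, Zsqrtd.im_mul]⟩

lemma uu00 : uu 0 0 = ⟨0, -1⟩ := rfl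
lemma uu01 : uu 0 1 = ⟨-1, 0⟩ := rfl
lemma uu10 : uu 1 0 = ⟨0, 0⟩ := rfl
lemma uu11 : uu 1 1 = ⟨0, 1⟩ := rfl

lemma act_U (v : Vc) : act (emb uu) v = (-I * v.1 - v.2, I * v.2) := by
  unfold act
  simp only [emb_apply, uu00, uu01, uu10, uu11]
  simp [GaussianInt.toComplex_def]
  ring

lemma T_L : im (embZ ModularGroup.T) (Ln 1) = Ln 1 := by
  unfold Ln
  refine im_Zq _ 1 one_ne_zero fun v => ?_
  rw [act_T]
  unfold q ss rr
  simp only [normSq_apply, add_re, add_im]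
  ring

lemma T_C (a : ℝ) : im (embZ ModularGroup.T) (Cc a) = Cc (a + 1) := by
  unfold Cc
  refine im_Zq _ 1 one_ne_zero fun v => ?_
  rw [act_T]
  unfold q ss rr
  simp only [normSq_apply, add_re, add_im]
  ring

lemma S_L : im (embZ ModularGroup.S) (Ln 1) = Cc 0 := by
  unfold Ln Cc
  refine im_Zq _ (-1) (by norm_num) fun v => ?_
  rw [act_S]
  unfold q ss rr
  simp only [normSq_apply, neg_re, neg_im]
  ring

lemma S_C0 : im (embZ ModularGroup.S) (Cc 0) = Ln 1 := by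
  unfold Ln Cc
  refine im_Zq _ (-1) (by norm_num) fun v => ?_
  rw [act_S]
  unfold q ss rr
  simp only [normSq_apply, neg_re, neg_im]
  ring

lemma S_C1 : im (embZ ModularGroup.S) (Cc 1) = Cc (-1) := by
  unfold Cc
  refine im_Zq _ 1 (by norm_num) fun v => ?_
  rw [act_S]
  unfold q ss rr
  simp only [normSq_apply, neg_re, neg_im]
  ring

lemma S_Cm : im (embZ ModularGroup.S) (Cc (-1)) = Cc 1 := by
  unfold Cc
  refine im_Zq _ 1 (by norm_num) fun v => ?_
  rw [act_S]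
  unfold q ss rr
  simp only [normSq_apply, neg_re, neg_im]
  ring

lemma U_R : im (emb uu) R0 = Ln 1 := by
  rw [R0_eq]
  unfold Ln
  refine im_Zq _ (-1) (by norm_num) fun v => ?_
  rw [act_U]
  unfold q ss rr
  simp only [normSq_apply, sub_re, sub_im, mul_re, mul_im, neg_re, neg_im, I_re, I_im]
  ring

lemma U_L : im (emb uu) (Ln 1) = R0 := by
  rw [R0_eq]
  unfold Ln
  refine im_Zq _ (-1) (by norm_num) fun v => ?_
  rw [act_U]
  unfold q ss rr
  simp only [normSq_apply, sub_re, sub_im, mul_re, mul_im, neg_re, neg_im, I_re, I_im]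
  ring

lemma U_C (a : ℝ) : im (emb uu) (Cc a) = Cc (-a) := by
  unfold Cc
  refine im_Zq _ 1 (by norm_num) fun v => ?_
  rw [act_U]
  unfold q ss rr
  simp only [normSq_apply, sub_re, sub_im, mul_re, mul_im, neg_re, neg_im, I_re, I_im]
  ring

lemma inv_of {g : G} {A B : Set X} (h : im g A = B) : im g⁻¹ B = A := by
  rw [← h, im_inv_im]

lemma T_mem : embZ ModularGroup.T ∈ SymP := by
  have e0 := embZ_R0 ModularGroup.T
  have e1 := T_C 0
  have e2 := T_C 1
  have e3 := T_C (-1)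
  norm_num at e1 e2 e3
  apply mem_SymP
  · apply P_im
    · rw [e0]; exact P_base.1
    · rw [T_L]; exact P_base.2.1
    · rw [e1]; exact P_base.2.2.2
    · rw [e2]; exact Cc_two
  · apply P_im
    · rw [inv_of e0]; exact P_base.1
    · rw [inv_of T_L]; exact P_base.2.1
    · rw [inv_of e3]; exact Cc_neg1
    · rw [inv_of e1]; exact P_base.2.2.1

lemma S_mem : embZ ModularGroup.S ∈ SymP := by
  have e0 := embZ_R0 ModularGroup.S
  apply mem_SymP
  · apply P_im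
    · rw [e0]; exact P_base.1
    · rw [S_L]; exact P_base.2.2.1
    · rw [S_C0]; exact P_base.2.1
    · rw [S_C1]; exact Cc_neg1
  · apply P_im
    · rw [inv_of e0]; exact P_base.1
    · rw [inv_of S_C0]; exact P_base.2.2.1
    · rw [inv_of S_L]; exact P_base.2.1
    · rw [inv_of S_Cm]; exact Cc_neg1

lemma U_mem : emb uu ∈ SymP := by
  have e1 := U_C 0
  have e2 := U_C 1
  have e3 := U_C (-1)
  norm_num at e1 e3
  apply mem_SymP
  · apply P_im
    · rw [U_R]; exact P_base.2.1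
    · rw [U_L]; exact P_base.1
    · rw [e1]; exact P_base.2.2.1
    · rw [e2]; exact Cc_neg1
  · apply P_im
    · rw [inv_of U_L]; exact P_base.2.1
    · rw [inv_of U_R]; exact P_base.1
    · rw [inv_of e1]; exact P_base.2.2.1
    · rw [inv_of e3]; exact Cc_neg1

lemma embZ_mem_SymP (k : Matrix.SpecialLinearGroup (Fin 2) ℤ) : embZ k ∈ SymP := by
  have h : k ∈ Subgroup.closure {ModularGroup.S, ModularGroup.T} := by
    simp [SpecialLinearGroup.SL2Z_generators]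
  have h2 : Subgroup.closure {ModularGroup.S, ModularGroup.T} ≤ SymP.comap embZ := by
    rw [Subgroup.closure_le]
    intro x hx
    simp only [Set.mem_insert_iff, Set.mem_singleton_iff] at hx
    rcases hx with rfl | rfl
    · exact S_mem
    · exact T_mem
  exact h2 h

/-! ### the packing lies in the strip -/

noncomputable def up (z : X) : ℝ := normSq (rep z).2 - ss (rep z)

lemma ss_smul (c : ℂ) (v : Vc) : ss (c • v) = normSq c * ss v := by
  unfold ss
  simp only [Prod.smul_fst, Prod.smul_snd, smul_eq_mul, normSq_apply, mul_re, mul_im]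
  ring

lemma ss_pt {v : Vc} (hv : v ≠ 0) : ∃ c : ℝ, 0 < c ∧ ss v = c * ss (rep (pt v)) := by
  obtain ⟨c, hc, h⟩ := exists_smul_rep hv
  refine ⟨normSq c, normSq_pos.2 hc, ?_⟩
  conv_lhs => rw [h, ss_smul]

lemma ss_U (z : X) : ∃ c : ℝ, 0 < c ∧ up z = c * ss (rep (emb uu • z)) := by
  obtain ⟨c, hc, h⟩ := ss_pt (act_ne (g := emb uu) (rep_ne z))
  refine ⟨c, hc, ?_⟩
  rw [smul_eq, ← h, act_U]
  unfold up ss
  simp only [normSq_apply, sub_re, sub_im, mul_re, mul_im, neg_re, neg_im, I_re, I_im]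
  ring

/-- the Gaussian circles in the strip `0 ≤ Im z ≤ 1` -/
def F1 : Set (Set X) := {V | V ∈ F0 ∧ (∀ z ∈ V, 0 ≤ ss (rep z)) ∧ ∀ z ∈ V, 0 ≤ up z}

lemma Cc_F1 (n : ℤ) : Cc n ∈ F1 := by
  refine ⟨Cc_F0 n, ?_, ?_⟩
  · intro z hz
    induction z using OnePoint.rec with
    | infty => exact absurd hz infty_Cc
    | coe w =>
      rw [mem_Cc] at hz
      simp [ss]
      nlinarith [sq_nonneg (w.re - n), sq_nonneg w.im]
  · intro z hz
    induction z using OnePoint.rec with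
    | infty => exact absurd hz infty_Cc
    | coe w =>
      rw [mem_Cc] at hz
      simp [up, ss]
      nlinarith [sq_nonneg (w.re - n), sq_nonneg (w.im - 1)]

lemma R0_F0 : R0 ∈ F0 := ⟨1, by rw [map_one, im_one]⟩

lemma L_F0 : Ln 1 ∈ F0 := ⟨uu, U_R.symm⟩

lemma P_F1 : ∀ V ∈ P, V ∈ F1 := by
  apply P_ind
  · refine ⟨R0_F0, ?_, ?_⟩
    · intro z hz; rw [mem_R0.1 hz]
    · intro z hz; unfold up; rw [mem_R0.1 hz, sub_zero]; exact normSq_nonneg _
  · refine ⟨L_F0, ?_, ?_⟩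
    · intro z hz
      have h0 : q 0 1 0 (-1) (rep z) = 0 := hz
      unfold q at h0
      have := normSq_nonneg (rep z).2
      linarith
    · intro z hz
      have h0 : q 0 1 0 (-1) (rep z) = 0 := hz
      unfold q at h0
      unfold up
      linarith
  · exact_mod_cast Cc_F1 0
  · exact_mod_cast Cc_F1 1
  · intro S T U V _ _ _ _ fS fT fU hV st tu su h0 vs vt vu
    have hV0 : V ∈ F0 := F0_closed fS.1 fT.1 fU.1 hV st tu su h0 vs vt vu
    have hsum : ∀ W : Set X, (∀ p ∈ V ∩ S, p ∈ W) → (∀ p ∈ V ∩ T, p ∈ W) → (∀ p ∈ V ∩ U, p ∈ W) →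
        (∀ p ∈ W, ∀ p' ∈ W, p = p') → False := by
      intro W h1 h2 h3 h4
      obtain ⟨p1, hp1, -⟩ := vs
      obtain ⟨p2, hp2, -⟩ := vt
      obtain ⟨p3, hp3, -⟩ := vu
      have e12 := h4 _ (h1 _ hp1) _ (h2 _ hp2)
      have e13 := h4 _ (h1 _ hp1) _ (h3 _ hp3)
      have : p1 ∈ S ∩ T ∩ U := ⟨⟨hp1.2, by rw [e12]; exact hp2.2⟩, by rw [e13]; exact hp3.2⟩
      rw [h0] at this
      exact this
    refine ⟨hV0, ?_, ?_⟩
    · by_contra hcon
      have hneg : ∀ z ∈ V, ss (rep z) ≤ 0 := (side0 hV0).resolve_left hcon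
      have hne : V ≠ R0 := by
        intro he
        apply hcon
        intro z hz
        rw [he] at hz
        rw [mem_R0.1 hz]
      obtain ⟨m, n, hmn, hall⟩ := meet0 hV0 hne
      refine hsum (V ∩ R0) ?_ ?_ ?_ ?_
      · intro p hp; exact ⟨hp.1, mem_R0.2 (le_antisymm (hneg p hp.1) (fS.2.1 p hp.2))⟩
      · intro p hp; exact ⟨hp.1, mem_R0.2 (le_antisymm (hneg p hp.1) (fT.2.1 p hp.2))⟩
      · intro p hp; exact ⟨hp.1, mem_R0.2 (le_antisymm (hneg p hp.1) (fU.2.1 p hp.2))⟩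
      · intro p hp p' hp'; rw [hall p hp, hall p' hp']
    · by_contra hcon
      have hW := F0.im hV0 uu
      have hneg : ∀ z ∈ V, up z ≤ 0 := by
        rcases side0 hW with h | h
        · exfalso
          apply hcon
          intro z hz
          obtain ⟨c, hc, he⟩ := ss_U z
          rw [he]
          exact mul_nonneg hc.le (h _ (by rw [mem_im]; simpa using hz))
        · intro z hz
          obtain ⟨c, hc, he⟩ := ss_U z
          rw [he]
          exact mul_nonpos_of_nonneg_of_nonpos hc.le (h _ (by rw [mem_im]; simpa using hz))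
      have hne : im (emb uu) V ≠ R0 := by
        intro he
        apply hcon
        intro z hz
        have h1 : emb uu • z ∈ R0 := by rw [← he, mem_im]; simpa using hz
        obtain ⟨c, hc, he'⟩ := ss_U z
        rw [he', mem_R0.1 h1, mul_zero]
      obtain ⟨m, n, hmn, hall⟩ := meet0 hW hne
      have hz0 : ∀ z, 0 ≤ up z → up z ≤ 0 → emb uu • z ∈ R0 := by
        intro z h1 h2
        obtain ⟨c, hc, he⟩ := ss_U z
        rw [mem_R0]
        have : c * ss (rep (emb uu • z)) = 0 := by rw [← he]; exact le_antisymm h2 h1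
        exact (mul_eq_zero.1 this).resolve_left hc.ne'
      refine hsum {p | p ∈ V ∧ emb uu • p ∈ R0} ?_ ?_ ?_ ?_
      · intro p hp; exact ⟨hp.1, hz0 p (fS.2.2 p hp.2) (hneg p hp.1)⟩
      · intro p hp; exact ⟨hp.1, hz0 p (fT.2.2 p hp.2) (hneg p hp.1)⟩
      · intro p hp; exact ⟨hp.1, hz0 p (fU.2.2 p hp.2) (hneg p hp.1)⟩
      · intro p hp p' hp'
        have h1 := hall (emb uu • p) ⟨by rw [mem_im]; simpa using hp.1, hp.2⟩
        have h2 := hall (emb uu • p') ⟨by rw [mem_im]; simpa using hp'.1, hp'.2⟩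
        exact MulAction.injective (emb uu) (h1.trans h2.symm)

/-- **every circle of the packing is the image of the real circle under a Gaussian symmetry** -/
lemma P_trans : ∀ V ∈ P, ∃ k, emb k ∈ SymP ∧ V = im (emb k) R0 := by
  have hSZ : ∀ k : Matrix.SpecialLinearGroup (Fin 2) ℤ, ∃ l, emb l = embZ k ∧ emb l ∈ SymP := by
    intro k
    obtain ⟨l, hl⟩ := embZ_mem k
    exact ⟨l, hl.symm, by rw [← hl]; exact embZ_mem_SymP k⟩
  obtain ⟨s, hs, hs'⟩ := hSZ ModularGroup.S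
  obtain ⟨t, ht, ht'⟩ := hSZ ModularGroup.T
  apply P_ind
  · exact ⟨1, by rw [map_one]; exact SymP.one_mem, by rw [map_one, im_one]⟩
  · exact ⟨uu, U_mem, U_R.symm⟩
  · refine ⟨s * uu, by rw [map_mul]; exact SymP.mul_mem hs' U_mem, ?_⟩
    rw [map_mul, im_mul, U_R, hs, S_L]
  · refine ⟨t * (s * uu), by rw [map_mul, map_mul]; exact SymP.mul_mem ht' (SymP.mul_mem hs' U_mem), ?_⟩
    rw [map_mul, map_mul, im_mul, im_mul, U_R, hs, S_L, ht]
    have := T_C 0
    rw [zero_add] at this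
    exact this.symm
  · intro S T U V hS _ _ hV fS _ _ _ _ _ _ _ vs _ _
    obtain ⟨g, hg, rfl⟩ := fS
    have hginv : (emb g)⁻¹ ∈ SymP := SymP.inv_mem hg
    have h1 : im (emb g)⁻¹ V ∈ P := (hginv V).1 hV
    have h2 : Tg (im (emb g)⁻¹ V) R0 := by
      have := vs.im (emb g)⁻¹
      rwa [im_inv_im] at this
    obtain ⟨k, m, hm, hk⟩ := tangent0 (P_F1 _ h1).1 h2
    obtain ⟨l, hl, hl'⟩ := hSZ k
    have h3 : Ln m ∈ P := by
      have h4 : (embZ k)⁻¹ ∈ SymP := SymP.inv_mem (embZ_mem_SymP k)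
      have h5 := (h4 _).1 h1
      rwa [hk, im_inv_im] at h5
    obtain ⟨-, h6, h7⟩ := P_F1 _ h3
    have h8 : (((⟨0, m⟩ : ℂ)) : X) ∈ Ln m := mem_Ln_some.2 rfl
    have h9 := h6 _ h8
    have h10 := h7 _ h8
    simp [ss] at h9
    simp [up, ss] at h10
    have hm1 : m = 1 := by
      have a1 : (0 : ℤ) ≤ m := by exact_mod_cast h9
      have a2 : m ≤ (1 : ℤ) := by exact_mod_cast h10
      omega
    refine ⟨g * (l * uu), by rw [map_mul, map_mul]; exact SymP.mul_mem hg (SymP.mul_mem hl' U_mem), ?_⟩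
    rw [map_mul, map_mul, im_mul, im_mul, U_R, hl]
    have : im (embZ k) (Ln 1) = im (emb g)⁻¹ V := by rw [hk, hm1]; simp
    rw [this, im_im_inv]

end Pool.Agent.X221.AP
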