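import Pool.Agent.X221.AP.Ht

set_option autoImplicit false

open OnePoint Matrix Complex Topology Filter

namespace Pool.Agent.X221.AP

/-- the ping-pong set of `g` -/
def Xs (g : G) : Set X := {z | H (act g (rep z)) ≤ H (rep z) ∨ H (act g⁻¹ (rep z)) ≤ H (rep z)}

lemma Xs_inv (g : G) : Xs g⁻¹ = Xs g := by
  ext z
  simp only [Xs, Set.mem_ofPred_eq, inv_inv]
  exact or_comm

lemma H_act_iff (g : G) {v : Vc} (hv : v ≠ 0) :
    H (act g v) ≤ H v ↔ H (act g (rep (pt v))) ≤ H (rep (pt v)) := by
  obtain ⟨c, hc, h⟩ := exists_smul_rep hv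
  conv_lhs => rw [h, act_smul, H_smul, H_smul]
  exact mul_le_mul_iff_right₀ (normSq_pos.2 hc)

lemma H_act_lt (g : G) {v : Vc} (hv : v ≠ 0) :
    H (act g v) < H v ↔ H (act g (rep (pt v))) < H (rep (pt v)) := by
  obtain ⟨c, hc, h⟩ := exists_smul_rep hv
  conv_lhs => rw [h, act_smul, H_smul, H_smul]
  exact mul_lt_mul_iff_right₀ (normSq_pos.2 hc)

lemma mem_Xs {g : G} {v : Vc} (hv : v ≠ 0) :
    pt v ∈ Xs g ↔ H (act g v) ≤ H v ∨ H (act g⁻¹ v) ≤ H v := by
  rw [H_act_iff g hv, H_act_iff g⁻¹ hv]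
  rfl

noncomputable def rho (g : G) (z : X) : ℝ := H (act g (rep z)) / H (rep z)

lemma cont_rho (g : G) : Continuous (rho g) := by
  have h := cont_ind (fun v => H (act g v) / H v)
    (by
      apply ContinuousOn.div
      · exact (cont_H.comp (cont_act g)).continuousOn
      · exact cont_H.continuousOn
      · intro v hv; exact (H_pos hv).ne')
    (by
      intro c hc v hv
      have h1 : normSq c ≠ 0 := by simpa using hc
      have h2 := (H_pos hv).ne'
      simp only [act_smul, H_smul]
      field_simp)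
  exact h

lemma rho_le {g : G} {z : X} : rho g z ≤ 1 ↔ H (act g (rep z)) ≤ H (rep z) := by
  unfold rho; rw [div_le_one (H_pos (rep_ne z))]

lemma rho_lt {g : G} {z : X} : rho g z < 1 ↔ H (act g (rep z)) < H (rep z) := by
  unfold rho; rw [div_lt_one (H_pos (rep_ne z))]

lemma closed_Xs (g : G) : IsClosed (Xs g) := by
  have : Xs g = {z | rho g z ≤ 1} ∪ {z | rho g⁻¹ z ≤ 1} := by
    ext z
    simp only [Xs, Set.mem_ofPred_eq, Set.mem_union, rho_le]
  rw [this]
  exact (isClosed_le (cont_rho g) continuous_const).union (isClosed_le (cont_rho g⁻¹) continuous_const)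

/-- strict convexity along the orbits -/
def SC (g : G) : Prop := ∀ u : Vc, u ≠ 0 → 2 * H u < H (act g u) + H (act g⁻¹ u) ∨ act g u = u

lemma SC.inv {g : G} (h : SC g) : SC g⁻¹ := by
  intro u hu
  rcases h u hu with h1 | h1
  · left; rw [inv_inv]; linarith
  · right
    conv_lhs => rw [← h1]
    simp

lemma SC_of_trace {g : G} {t : ℝ} (ht : 2 ≤ t) (h : ∀ u, act g u + act g⁻¹ u = (t : ℂ) • u) : SC g := by
  intro u hu
  have h1 := H_par (act g u) (act g⁻¹ u)
  rw [h u, H_smul, normSq_ofReal] at h1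
  have h2 := H_nonneg (act g u - act g⁻¹ u)
  have h3 := H_pos hu
  by_cases hd : act g u - act g⁻¹ u = 0
  · rcases ht.eq_or_lt with h4 | h4
    · right
      have h5 := h u
      have h6 : act g⁻¹ u = act g u := (sub_eq_zero.1 hd).symm
      rw [h6, ← h4] at h5
      have h7 : (2 : ℂ) • act g u = (2 : ℂ) • u := by
        rw [two_smul, h5]; norm_num
      exact smul_right_injective Vc (two_ne_zero) h7
    · left
      have : 2 * 2 < t * t := by nlinarith
      nlinarith
  · left
    have h4 := H_pos hd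
    have : 2 * 2 ≤ t * t := by nlinarith
    nlinarith

lemma act_pow_succ (g : G) (n : ℕ) (v : Vc) : act (g ^ (n + 1)) v = act g (act (g ^ n) v) := by
  rw [pow_succ', act_mul]

lemma pow_mono {g : G} (h : SC g) {v : Vc} (hv : v ≠ 0) (hz : pt v ∉ Xs g) (n : ℕ) :
    H (act (g ^ n) v) < H (act (g ^ (n + 1)) v) := by
  rw [mem_Xs hv] at hz
  push Not at hz
  obtain ⟨h1, h2⟩ := hz
  have hfix : ∀ n : ℕ, act g (act (g ^ n) v) ≠ act (g ^ n) v := by
    intro n he
    have h3 : act (g ^ n) (act g v) = act (g ^ n) v := by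
      rw [← act_mul, ← pow_succ, pow_succ', act_mul, he]
    have h4 : act g v = v := by
      have := congrArg (act (g ^ n)⁻¹) h3
      simpa using this
    rw [h4] at h1
    exact lt_irrefl _ h1
  induction n with
  | zero =>
    simpa using h1
  | succ n ih =>
    have h3 := (h (act (g ^ (n + 1)) v) (act_ne hv)).resolve_right (hfix (n + 1))
    have h4 : act g⁻¹ (act (g ^ (n + 1)) v) = act (g ^ n) v := by
      rw [act_pow_succ]; simp
    rw [h4, ← act_pow_succ] at h3
    linarith

/-- **ping-pong** -/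
lemma pp_nat {g : G} (h : SC g) {z : X} (hz : z ∉ Xs g) (n : ℕ) :
    rho g⁻¹ (g ^ (n + 1) • z) < 1 := by
  have hv := rep_ne z
  rw [rho_lt, smul_eq, ← H_act_lt _ (act_ne hv)]
  have h1 := pow_mono h hv (by rwa [pt_rep]) n
  rw [act_pow_succ] at h1 ⊢
  simpa using h1

lemma pp_pos {g : G} (h : SC g) {z : X} (hz : z ∉ Xs g) {n : ℤ} (hn : 0 < n) :
    rho g⁻¹ (g ^ n • z) < 1 := by
  obtain ⟨m, rfl⟩ := Int.eq_ofNat_of_zero_le hn.le
  obtain ⟨k, rfl⟩ := Nat.exists_eq_succ_of_ne_zero (show m ≠ 0 by rintro rfl; simp at hn)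
  have := pp_nat h hz k
  rw [← zpow_natCast] at this
  exact this

lemma pp_neg {g : G} (h : SC g) {z : X} (hz : z ∉ Xs g) {n : ℤ} (hn : n < 0) :
    rho g (g ^ n • z) < 1 := by
  have := pp_pos (n := -n) h.inv (by rwa [Xs_inv]) (by omega)
  simpa using this

lemma pp {g : G} (h : SC g) {z : X} (hz : z ∉ Xs g) {n : ℤ} (hn : n ≠ 0) : g ^ n • z ∈ Xs g := by
  rcases lt_or_gt_of_ne hn with h1 | h1
  · left
    exact (rho_lt.1 (pp_neg h hz h1)).le
  · right
    exact (rho_lt.1 (pp_pos h hz h1)).le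

/-! ### parabolic elements -/

noncomputable def par (g : G) (n : ℤ) : G := g * (embZ ModularGroup.T) ^ n * g⁻¹

lemma par_inv (g : G) (n : ℤ) : (par g n)⁻¹ = par g (-n) := by
  unfold par; simp [mul_assoc]

lemma par_pow (g : G) (n : ℤ) (m : ℕ) : (par g n) ^ m = par g (n * m) := by
  unfold par
  rw [conj_pow, _root_.zpow_mul, zpow_natCast]

lemma act_T_pow (n : ℤ) (v : Vc) : act ((embZ ModularGroup.T) ^ n) v = (v.1 + n * v.2, v.2) := by
  rw [← map_zpow]
  have h := ModularGroup.coe_T_zpow n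
  have e : ∀ i j, (ModularGroup.T ^ n) i j = (!![1, n; 0, 1] : Matrix (Fin 2) (Fin 2) ℤ) i j := by
    intro i j; rw [← h]
  unfold act
  simp only [embZ_apply, e]
  simp

/-- the fixed vector and the linear form -/
noncomputable def wv (g : G) : Vc := act g (1, 0)
noncomputable def be (g : G) (v : Vc) : ℂ := (act g⁻¹ v).2

lemma act_par (g : G) (n : ℤ) (v : Vc) : act (par g n) v = v + ((n : ℂ) * be g v) • wv g := by
  unfold par be wv
  rw [act_mul, act_mul, act_T_pow, ← act_smul]
  conv_rhs => rw [← act_act_inv g v]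
  rw [← act_add, act_inv_act]
  congr 1
  ext <;> simp

lemma SC_par (g : G) (n : ℤ) : SC (par g n) := by
  refine SC_of_trace (t := 2) le_rfl fun u => ?_
  rw [par_inv, act_par, act_par]
  push_cast
  ext <;> simp <;> ring

lemma wv_ne (g : G) : wv g ≠ 0 := act_ne (by simp)

lemma be_zero_iff {g : G} {v : Vc} (hv : v ≠ 0) : be g v = 0 ↔ pt v = g • (OnePoint.infty : X) := by
  rw [smul_eq, pt_eq_iff hv (act_ne (rep_ne _))]
  have : dt v (act g (rep (OnePoint.infty : X))) =
      (g : Matrix (Fin 2) (Fin 2) ℂ).det * dt (act g⁻¹ v) (1, 0) := by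
    conv_lhs => rw [← act_act_inv g v]
    rw [dt_act]; rfl
  rw [this]
  unfold be dt
  simp [g.det_ne_zero]

lemma be_smul (g : G) (c : ℂ) (v : Vc) : be g (c • v) = c * be g v := by
  unfold be; rw [act_smul]; rfl

lemma cont_be (g : G) : Continuous (be g) := continuous_snd.comp (cont_act g⁻¹)

lemma par_fix (g : G) (n : ℤ) : par g n • (g • (OnePoint.infty : X)) = g • (OnePoint.infty : X) := by
  have h : (OnePoint.infty : X) = pt (1, 0) := by simp [pt]
  have h0 : ((1, 0) : Vc) ≠ 0 := by simp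
  rw [h, smul_pt g h0, smul_pt _ (act_ne h0), act_par]
  have : be g (act g (1, 0)) = 0 := by unfold be; simp
  rw [this, mul_zero, zero_smul, add_zero]

lemma par_fix_iff {g : G} {n : ℤ} (hn : n ≠ 0) {z : X} (h : par g n • z = z) :
    z = g • (OnePoint.infty : X) := by
  have hv := rep_ne z
  rw [smul_eq, act_par] at h
  conv_rhs at h => rw [← pt_rep z]
  have hne : rep z + ((n : ℂ) * be g (rep z)) • wv g ≠ 0 := by rw [← act_par]; exact act_ne hv
  rw [pt_eq_iff hne hv] at h
  rw [← pt_rep z, ← be_zero_iff hv]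
  by_contra hb
  have h1 : dt (wv g) (rep z) = 0 := by
    have : dt (rep z + ((n : ℂ) * be g (rep z)) • wv g) (rep z) =
        ((n : ℂ) * be g (rep z)) * dt (wv g) (rep z) := by
      unfold dt; simp; ring
    rw [this] at h
    have hn' : (n : ℂ) ≠ 0 := by exact_mod_cast hn
    simpa [hn', hb] using h
  have h2 : pt (rep z) = g • (OnePoint.infty : X) := by
    rw [smul_eq]
    symm
    exact (pt_eq_iff (wv_ne g) hv).2 h1
  exact hb ((be_zero_iff hv).2 h2)

lemma fix_mem_Xs (g : G) (n : ℤ) : g • (OnePoint.infty : X) ∈ Xs (par g n) := by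
  have h : (OnePoint.infty : X) = pt (1, 0) := by simp [pt]
  have h0 : ((1, 0) : Vc) ≠ 0 := by simp
  rw [h, smul_pt g h0, mem_Xs (act_ne h0)]
  left
  rw [act_par]
  have : be g (act g (1, 0)) = 0 := by unfold be; simp
  rw [this, mul_zero, zero_smul, add_zero]

/-- **the ping-pong sets of high powers are small** -/
lemma small (g : G) {Z : Set X} (hZ : IsClosed Z) (hp : g • (OnePoint.infty : X) ∉ Z) :
    ∃ n : ℕ, 1 ≤ n ∧ Disjoint (Xs (par g n)) Z := by
  set b : X → ℝ := fun z => normSq (be g (rep z)) / H (rep z) with hb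
  have hcont : Continuous b := by
    refine cont_ind (fun v => normSq (be g v) / H v) ?_ ?_
    · apply ContinuousOn.div
      · exact (continuous_normSq.comp (cont_be g)).continuousOn
      · exact cont_H.continuousOn
      · intro v hv; exact (H_pos hv).ne'
    · intro c hc v hv
      have h1 : normSq c ≠ 0 := by simpa using hc
      have h2 := (H_pos hv).ne'
      simp only [be_smul, H_smul, normSq_mul]
      field_simp
  have hXs : ∀ n : ℕ, ∀ z ∈ Xs (par g n), (n : ℝ) ^ 2 * H (wv g) * b z ≤ 4 := by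
    intro n z hz
    have hH := H_pos (rep_ne z)
    have key : ∀ m : ℤ, H (act (par g m) (rep z)) ≤ H (rep z) →
        (m : ℝ) ^ 2 * normSq (be g (rep z)) * H (wv g) ≤ 4 * H (rep z) := by
      intro m hm
      have h1 := H_par (act (par g m) (rep z)) (rep z)
      have h2 := H_nonneg (act (par g m) (rep z) + rep z)
      have h3 : act (par g m) (rep z) - rep z = ((m : ℂ) * be g (rep z)) • wv g := by
        rw [act_par]; abel
      rw [h3, H_smul, normSq_mul] at h1
      have h4 : normSq (m : ℂ) = (m : ℝ) ^ 2 := by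
        rw [← ofReal_intCast, normSq_ofReal]; ring
      rw [h4] at h1
      linarith
    have h5 : (n : ℝ) ^ 2 * normSq (be g (rep z)) * H (wv g) ≤ 4 * H (rep z) := by
      rcases hz with h | h
      · have := key n h
        exact_mod_cast this
      · rw [par_inv] at h
        have := key (-n) h
        push_cast at this
        rwa [neg_sq] at this
    rw [hb]
    simp only
    rw [mul_div_assoc', div_le_iff₀ hH]
    linarith
  by_cases hne : Z.Nonempty
  · obtain ⟨u, hu, hmin⟩ := hZ.isCompact.exists_isMinOn hne hcont.continuousOn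
    have hbu : 0 < b u := by
      have h1 : be g (rep u) ≠ 0 := by
        intro h
        have := (be_zero_iff (rep_ne u)).1 h
        rw [pt_rep] at this
        rw [this] at hu
        exact hp hu
      exact div_pos (normSq_pos.2 h1) (H_pos (rep_ne u))
    have hw := H_pos (wv_ne g)
    obtain ⟨n, hn⟩ := exists_nat_gt (4 / (H (wv g) * b u))
    have hpos : 0 < 4 / (H (wv g) * b u) := by positivity
    have hn1 : (1 : ℝ) ≤ n := by
      have : (0 : ℝ) < n := hpos.trans hn
      have : 0 < n := by exact_mod_cast this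
      exact_mod_cast this
    refine ⟨n, by exact_mod_cast hn1, ?_⟩
    rw [Set.disjoint_left]
    intro z hz hzZ
    have h1 := hXs n z hz
    have h2 : b u ≤ b z := hmin hzZ
    rw [div_lt_iff₀ (by positivity)] at hn
    have h3 : (n : ℝ) * (H (wv g) * b u) ≤ (n : ℝ) ^ 2 * H (wv g) * b z := by
      have : (n : ℝ) * (H (wv g) * b u) ≤ (n : ℝ) * n * (H (wv g) * b z) := by
        have h4 : (n : ℝ) * (H (wv g) * b u) ≤ n * (H (wv g) * b z) := by gcongr
        have h5 : (n : ℝ) * (H (wv g) * b z) ≤ n * n * (H (wv g) * b z) := by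
          have : 0 ≤ H (wv g) * b z := by
            have : 0 ≤ b z := hbu.le.trans h2
            positivity
          nlinarith [mul_nonneg (mul_nonneg (show (0:ℝ) ≤ n by linarith) (show (0:ℝ) ≤ (n:ℝ) - 1 by linarith)) this]
        linarith
      linarith
    linarith
  · refine ⟨1, le_rfl, ?_⟩
    rw [Set.not_nonempty_iff_eq_empty.1 hne]
    exact Set.disjoint_empty _

end Pool.Agent.X221.AP
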