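import Pool.Agent.X221.AP.Tan

set_option autoImplicit false

open OnePoint Matrix Complex Topology Filter

namespace Pool.Agent.X221.AP

lemma R0_Ln : R0 = Ln 0 := by
  rw [R0_eq]; unfold Ln; simp

lemma mem_Ln_some {t : ℝ} {w : ℂ} : (w : X) ∈ Ln t ↔ w.im = t := by
  unfold Ln
  rw [mem_Zq_some]
  constructor <;> intro h <;> linarith

lemma infty_mem_Ln (t : ℝ) : (OnePoint.infty : X) ∈ Ln t := by
  unfold Ln; rw [mem_Zq_infty]

lemma some_inj {a b : ℂ} (h : (a : X) = (b : X)) : a = b := OnePoint.coe_eq_coe.1 h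

lemma tan_line {A e1 e2 D t : ℝ} (hA : A ≠ 0) (h : Tg (Zq A e1 e2 D) (Ln t)) :
    e2 ^ 2 = 4 * A * (A * t ^ 2 + e1 * t + D) := by
  obtain ⟨p, ⟨hp1, hp2⟩, hu⟩ := h
  induction p using OnePoint.rec with
  | infty => rw [mem_Zq_infty] at hp1; exact absurd hp1 hA
  | coe w =>
    rw [mem_Zq_some] at hp1
    rw [mem_Ln_some] at hp2
    rw [hp2] at hp1
    have h1 := hu ((⟨-e2 / A - w.re, t⟩ : ℂ) : X) ⟨by
      rw [mem_Zq_some]
      simp only
      have : A * (-e2 / A - w.re) = -e2 - A * w.re := by field_simp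
      linear_combination hp1 + ((-e2 / A - w.re) - w.re) * this, by rw [mem_Ln_some]⟩
    have h2 := congrArg Complex.re (some_inj h1)
    simp only at h2
    have h3 : -e2 = 2 * A * w.re := by
      have : A * (-e2 / A) = -e2 := by field_simp
      rw [← this]
      linear_combination A * h2
    have h4 : e2 = -(2 * A * w.re) := by linarith
    rw [h4] at hp1 ⊢
    linear_combination (-4 * A) * hp1

lemma tan_line0 {e1 e2 D t : ℝ} (h : Tg (Zq 0 e1 e2 D) (Ln t)) : e2 = 0 ∧ e1 * t + D ≠ 0 := by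
  obtain ⟨p, -, hu⟩ := h
  have hinf := hu (OnePoint.infty) ⟨mem_Zq_infty.2 rfl, infty_mem_Ln t⟩
  have he2 : e2 = 0 := by
    by_contra he
    have h1 := hu ((⟨-(e1 * t + D) / e2, t⟩ : ℂ) : X) ⟨by
      rw [mem_Zq_some]
      simp only
      field_simp
      ring, by rw [mem_Ln_some]⟩
    rw [← hinf] at h1
    exact OnePoint.coe_ne_infty _ h1
  refine ⟨he2, fun h0 => ?_⟩
  have h1 := hu ((⟨0, t⟩ : ℂ) : X) ⟨by
      rw [mem_Zq_some]
      simp only
      rw [he2]
      linarith, by rw [mem_Ln_some]⟩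
  rw [← hinf] at h1
  exact OnePoint.coe_ne_infty _ h1

lemma cn_mem (a m : ℤ) (hm : m ^ 2 = 1) : Zq 1 (-(m : ℝ)) (-2 * (a : ℝ)) ((a : ℝ) ^ 2) ∈ F0 := by
  obtain ⟨k, k00, k01, k10, k11⟩ : ∃ k : Matrix.SpecialLinearGroup (Fin 2) GaussianInt,
      k 0 0 = ⟨a, 0⟩ ∧ k 0 1 = ⟨-1, m * a⟩ ∧ k 1 0 = ⟨1, 0⟩ ∧ k 1 1 = ⟨0, m⟩ := by
    refine ⟨⟨!![(⟨a, 0⟩ : GaussianInt), ⟨-1, m * a⟩; ⟨1, 0⟩, ⟨0, m⟩], ?_⟩, rfl, rfl, rfl, rfl⟩
    rw [Matrix.det_fin_two_of]
    apply Zsqrtd.ext
    · simp [Zsqrtd.re_mul]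
    · simp [Zsqrtd.im_mul]; ring
  refine ⟨k, ?_⟩
  rw [im_R0]
  have hm' : (m : ℝ) ^ 2 = 1 := by exact_mod_cast hm
  have hm0 : (m : ℝ) ≠ 0 := by intro h; rw [h] at hm'; norm_num at hm'
  refine (Zq_scale (-(m : ℝ)) (by simpa using hm0) ?_ ?_ ?_ ?_).symm
  · unfold cA
    simp only [emb_apply, k10, k11]
    simp
  · unfold cE
    simp only [emb_apply, k00, k01, k10, k11]
    simp
    linear_combination -hm'
  · unfold cE
    simp only [emb_apply, k00, k01, k10, k11]
    simp
    ring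
  · unfold cD
    simp only [emb_apply, k00, k01]
    simp
    ring

lemma quad (m : ℤ) (hm : m ≠ 0) {U V : Set X} (hU : U ∈ F0) (hV : IsC V) (t1 : Tg U R0)
    (t2 : Tg U (Ln m)) (h0 : (OnePoint.infty : X) ∉ U) (t3 : Tg V R0) (t4 : Tg V (Ln m))
    (t5 : Tg V U) : V ∈ F0 := by
  have hmR : (m : ℝ) ≠ 0 := by exact_mod_cast hm
  obtain ⟨A, e1, e2, D, hUe, hodd, hdet⟩ := int_circ hU
  have hA : A ≠ 0 := by
    intro hA
    apply h0
    rw [hUe, mem_Zq_infty, hA]; simp
  have hAR : (A : ℝ) ≠ 0 := by exact_mod_cast hA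
  rw [hUe, R0_Ln] at t1
  rw [hUe] at t2
  have a1 := tan_line hAR t1
  have a2 := tan_line hAR t2
  have b1 : e2 ^ 2 = 4 * A * D := by
    have : (e2 : ℝ) ^ 2 = 4 * A * D := by rw [a1]; ring
    exact_mod_cast this
  have b2 : A * m + e1 = 0 := by
    have h1 : (A : ℝ) * m * (A * m + e1) = 0 := by
      linear_combination (1 / 4 : ℝ) * a1 - (1 / 4 : ℝ) * a2
    have h2 : (A : ℝ) * m + e1 = 0 := by
      rcases mul_eq_zero.1 h1 with h | h
      · rcases mul_eq_zero.1 h with h | h
        · exact absurd h hAR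
        · exact absurd h hmR
      · exact h
    exact_mod_cast h2
  have b3 : e1 ^ 2 = 1 := by linarith
  have b4 : A ^ 2 * m ^ 2 = 1 := by
    have : e1 = -(A * m) := by linarith
    rw [this] at b3
    linarith [b3]
  have hm2 : m ^ 2 = 1 := by
    have h1 : 0 < A ^ 2 := by positivity
    have h2 : 0 < m ^ 2 := by positivity
    nlinarith
  have hA2 : A ^ 2 = 1 := by rw [hm2, mul_one] at b4; exact b4
  obtain ⟨f, hf⟩ : ∃ f, e2 = 2 * f := by
    have : Even (e2 ^ 2) := ⟨2 * A * D, by linarith⟩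
    obtain ⟨f, hf⟩ := (Int.even_pow.1 this).1
    exact ⟨f, by linarith⟩
  set x0 : ℤ := -(A * f) with hx0
  have hA2R : (A : ℝ) ^ 2 = 1 := by exact_mod_cast hA2
  have hm2R : (m : ℝ) ^ 2 = 1 := by exact_mod_cast hm2
  have hUe' : U = Zq 1 (-(m : ℝ)) (-2 * (x0 : ℝ)) ((x0 : ℝ) ^ 2) := by
    rw [hUe]
    symm
    have c1 : (e1 : ℝ) = -(A * m) := by
      have : e1 = -(A * m) := by linarith
      exact_mod_cast this
    refine Zq_scale (A : ℝ) hAR ?_ ?_ ?_ ?_
    · rw [← hA2R]; ring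
    · rw [c1]
      linear_combination (m : ℝ) * hA2R
    · rw [hf, hx0]; push_cast; ring
    · rw [hx0]
      have : (f : ℝ) ^ 2 = A * D := by
        have : f ^ 2 = A * D := by rw [hf] at b1; linarith
        exact_mod_cast this
      push_cast
      rw [neg_sq, mul_pow, hA2R, this]; ring
  obtain ⟨A', d1, d2, D', hVe, hdisc⟩ := hV.exists
  by_cases hA' : A' = 0
  · exfalso
    rw [hA'] at hVe
    rw [hVe, R0_Ln] at t3
    rw [hVe] at t4
    obtain ⟨c1, c2⟩ := tan_line0 t3
    obtain ⟨-, c3⟩ := tan_line0 t4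
    rw [c1] at hVe
    have hd1 : d1 ≠ 0 := by
      rw [hA', c1] at hdisc
      intro h; rw [h] at hdisc; norm_num at hdisc
    rw [hVe, hUe'] at t5
    obtain ⟨p, ⟨hp1, hp2⟩, hu⟩ := t5
    induction p using OnePoint.rec with
    | infty => rw [mem_Zq_infty] at hp2; norm_num at hp2
    | coe w =>
      rw [mem_Zq_some] at hp1 hp2
      have h1 := hu ((⟨2 * x0 - w.re, w.im⟩ : ℂ) : X) ⟨by
        rw [mem_Zq_some]
        simp only
        linarith, by
        rw [mem_Zq_some]
        simp only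
        rw [← hp2]; ring⟩
      have h2 := congrArg Complex.re (some_inj h1)
      simp only at h2
      have h3 : w.re = x0 := by linarith
      rw [h3] at hp2
      have h4 : w.im * (w.im - m) = 0 := by linear_combination hp2
      rcases mul_eq_zero.1 h4 with h5 | h5
      · apply c2
        rw [h5] at hp1
        linarith
      · apply c3
        have : w.im = m := by linarith
        rw [this] at hp1
        linarith
  · rw [hVe, R0_Ln] at t3
    rw [hVe] at t4
    have c1 := tan_line hA' t3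
    have c2 := tan_line hA' t4
    have c3 : d2 ^ 2 = 4 * A' * D' := by rw [c1]; ring
    have c4 : A' * m + d1 = 0 := by
      have h1 : A' * m * (A' * m + d1) = 0 := by
        linear_combination (1 / 4 : ℝ) * c1 - (1 / 4 : ℝ) * c2
      rcases mul_eq_zero.1 h1 with h | h
      · rcases mul_eq_zero.1 h with h | h
        · exact absurd h hA'
        · exact absurd h hmR
      · exact h
    set x1 : ℝ := -d2 / (2 * A') with hx1
    have hVe' : V = Zq 1 (-(m : ℝ)) (-2 * x1) (x1 ^ 2) := by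
      rw [hVe]
      symm
      refine Zq_scale (1 / A') (by simpa using hA') ?_ ?_ ?_ ?_
      · field_simp
      · have : d1 = -(A' * m) := by linarith
        rw [this]; field_simp
      · rw [hx1]; field_simp
      · rw [hx1, div_pow, neg_sq, c3]; field_simp; ring
    rw [hVe', hUe'] at t5
    obtain ⟨p, ⟨hp1, hp2⟩, hu⟩ := t5
    induction p using OnePoint.rec with
    | infty => rw [mem_Zq_infty] at hp2; norm_num at hp2
    | coe w =>
      rw [mem_Zq_some] at hp1 hp2
      have h1 := hu ((⟨w.re, m - w.im⟩ : ℂ) : X) ⟨by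
        rw [mem_Zq_some]
        simp only
        rw [← hp1]; ring, by
        rw [mem_Zq_some]
        simp only
        rw [← hp2]; ring⟩
      have h2 := congrArg Complex.im (some_inj h1)
      simp only at h2
      have h3 : w.im = m / 2 := by linarith
      have h4 : (x1 - x0) * (2 * w.re - (x1 + x0)) = 0 := by linear_combination hp2 - hp1
      rcases mul_eq_zero.1 h4 with h5 | h5
      · exfalso
        have hx : x1 = x0 := by linarith
        rw [hx] at hu
        have g1 := hu ((⟨x0, 0⟩ : ℂ) : X) ⟨by rw [mem_Zq_some]; simp only; ring,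
          by rw [mem_Zq_some]; simp only; ring⟩
        have g2 := hu ((⟨x0, m⟩ : ℂ) : X) ⟨by rw [mem_Zq_some]; simp only; ring,
          by rw [mem_Zq_some]; simp only; ring⟩
        rw [← g1] at g2
        have := congrArg Complex.im (some_inj g2)
        simp only at this
        exact hmR this
      · have h6 : w.re = (x1 + x0) / 2 := by linarith
        rw [h3, h6] at hp1
        have h7 : (x1 - x0) ^ 2 = 1 := by linear_combination 4 * hp1 + hm2R
        have h8 : (x1 - x0 - 1) * (x1 - x0 + 1) = 0 := by linear_combination h7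
        rcases mul_eq_zero.1 h8 with h9 | h9
        · have : x1 = ((x0 + 1 : ℤ) : ℝ) := by push_cast; linarith
          rw [hVe', this]
          exact cn_mem _ _ hm2
        · have : x1 = ((x0 - 1 : ℤ) : ℝ) := by push_cast; linarith
          rw [hVe', this]
          exact cn_mem _ _ hm2

/-- the family of Gaussian circles is closed under adding tangent circles -/
lemma F0_closed {S T U V : Set X} (hS : S ∈ F0) (hT : T ∈ F0) (hU : U ∈ F0) (hV : IsC V)
    (st : Tg S T) (tu : Tg T U) (su : Tg S U) (h0 : S ∩ T ∩ U = ∅) (vs : Tg V S) (vt : Tg V T)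
    (vu : Tg V U) : V ∈ F0 := by
  obtain ⟨g, rfl⟩ := hS
  -- first reduction
  have hT' : im (emb g⁻¹) T ∈ F0 := F0.im hT _
  have e0 : im (emb g⁻¹) (im (emb g) R0) = R0 := by rw [map_inv, im_inv_im]
  have st' : Tg (im (emb g⁻¹) T) R0 := by
    have := (st.im (emb g⁻¹)).symm
    rwa [e0] at this
  obtain ⟨k, m, hm, hk⟩ := tangent0 hT' st'
  obtain ⟨l, hl⟩ := embZ_mem k⁻¹
  -- the reducing element
  set h := l * g⁻¹ with hh
  have eS : im (emb h) (im (emb g) R0) = R0 := by
    rw [hh, map_mul, im_mul, e0, ← hl, embZ_R0]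
  have eT : im (emb h) T = Ln m := by
    rw [hh, map_mul, im_mul, hk, ← hl, map_inv, im_inv_im]
  have hU' : im (emb h) U ∈ F0 := F0.im hU _
  have hV' : IsC (im (emb h) V) := hV.im _
  have q1 := (su.im (emb h)).symm
  have q2 := (tu.im (emb h)).symm
  have q3 := vs.im (emb h)
  have q4 := vt.im (emb h)
  have q5 := vu.im (emb h)
  rw [eS] at q1 q3
  rw [eT] at q2 q4
  have q0 : (OnePoint.infty : X) ∉ im (emb h) U := by
    intro hin
    have e : im (emb h) (im (emb g) R0 ∩ T ∩ U) = ∅ := by rw [h0, im_empty]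
    rw [im_inter, im_inter, eS, eT] at e
    have : (OnePoint.infty : X) ∈ R0 ∩ Ln m ∩ im (emb h) U :=
      ⟨⟨by rw [R0_Ln]; exact infty_mem_Ln 0, infty_mem_Ln _⟩, hin⟩
    rw [e] at this
    exact this
  have hres := quad m hm hU' hV' q1 q2 q0 q3 q4 q5
  have := F0.im hres h⁻¹
  rwa [map_inv, im_inv_im] at this

end Pool.Agent.X221.AP
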