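import Pool.Agent.X221.AP.Hyp

set_option autoImplicit false

open OnePoint Matrix Complex Topology Filter

namespace Pool.Agent.X221.AP

/-- the Gaussian symmetries -/
noncomputable def GG : Subgroup G := SymP ⊓ emb.range

lemma GG_countable : (GG : Set G).Countable := by
  have h : Countable GaussianInt := by
    have : Function.Injective (fun z : GaussianInt => (z.re, z.im)) := by
      intro a b hab
      exact Zsqrtd.ext (congrArg Prod.fst hab) (congrArg Prod.snd hab)
    exact this.countable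
  have h1 : Countable (Matrix.SpecialLinearGroup (Fin 2) GaussianInt) := by
    have : Function.Injective (fun k : Matrix.SpecialLinearGroup (Fin 2) GaussianInt =>
        (fun p : Fin 2 × Fin 2 => k p.1 p.2)) := by
      intro k l h
      apply Matrix.SpecialLinearGroup.ext
      intro i j
      exact congrFun h (i, j)
    exact this.countable
  have h2 : (Set.range emb).Countable := Set.countable_range _
  refine h2.mono ?_
  rintro g ⟨-, k, rfl⟩
  exact ⟨k, rfl⟩

lemma exists_enum : ∃ e : ℕ → G, Set.range e = (GG : Set G) := by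
  obtain ⟨e, he⟩ := GG_countable.exists_eq_range ⟨1, GG.one_mem⟩
  exact ⟨e, he.symm⟩

noncomputable def en : ℕ → G := Classical.choose exists_enum
lemma en_range : Set.range en = (GG : Set G) := Classical.choose_spec exists_enum
lemma en_mem (m : ℕ) : en m ∈ GG := by
  have : en m ∈ Set.range en := ⟨m, rfl⟩
  rw [en_range] at this
  exact this
lemma en_surj {g : G} (h : g ∈ GG) : ∃ m, en m = g := by
  have : g ∈ Set.range en := by rw [en_range]; exact h
  exact this

lemma gam_GG : gam ∈ GG := ⟨embZ_mem_SymP _, by obtain ⟨k, hk⟩ := gam_emb; exact ⟨k, hk.symm⟩⟩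

lemma T_GG : embZ ModularGroup.T ∈ GG :=
  ⟨embZ_mem_SymP _, by obtain ⟨k, hk⟩ := embZ_mem ModularGroup.T; exact ⟨k, hk.symm⟩⟩

lemma par_GG {g : G} (h : g ∈ GG) (n : ℤ) : par g n ∈ GG :=
  GG.mul_mem (GG.mul_mem h (GG.zpow_mem T_GG n)) (GG.inv_mem h)

open Classical in
noncomputable def pick (m : ℕ) (Z : Set X) : ℕ :=
  if h : ∃ n : ℕ, 1 ≤ n ∧ Disjoint (Xs (par (en m) n)) Z then Classical.choose h else 0

lemma pick_spec {m : ℕ} {Z : Set X} (h : pick m Z ≠ 0) :
    Disjoint (Xs (par (en m) (pick m Z))) Z := by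
  unfold pick at h ⊢
  split_ifs at h ⊢ with h1
  · exact (Classical.choose_spec h1).2
  · exact absurd rfl h

lemma pick_ne {m : ℕ} {Z : Set X} (hZ : IsClosed Z) (h : en m • (OnePoint.infty : X) ∉ Z) :
    pick m Z ≠ 0 := by
  have h1 := small (en m) hZ h
  unfold pick
  rw [dif_pos h1]
  have := (Classical.choose_spec h1).1
  omega

open Classical in
noncomputable def Zs : ℕ → Set X
  | 0 => Kb ∪ Xs gam
  | m + 1 => Zs m ∪ (if pick m (Zs m) = 0 then ∅ else Xs (par (en m) (pick m (Zs m))))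

noncomputable def Nn (m : ℕ) : ℕ := pick m (Zs m)
noncomputable def Xm (m : ℕ) : Set X := Xs (par (en m) (Nn m))

lemma closed_Zs (m : ℕ) : IsClosed (Zs m) := by
  induction m with
  | zero => exact closed_Kb.union (closed_Xs _)
  | succ m ih =>
    unfold Zs
    refine ih.union ?_
    split_ifs
    · exact isClosed_empty
    · exact closed_Xs _

lemma Zs_mono {m n : ℕ} (h : m ≤ n) : Zs m ⊆ Zs n := by
  induction n, h using Nat.le_induction with
  | base => exact le_rfl
  | succ n _ ih =>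
    refine ih.trans ?_
    conv_rhs => unfold Zs
    exact Set.subset_union_left

lemma Nn_ne {m : ℕ} (h : en m • (OnePoint.infty : X) ∉ Zs m) : Nn m ≠ 0 := pick_ne (closed_Zs m) h

lemma Xm_disj {m : ℕ} (h : Nn m ≠ 0) : Disjoint (Xm m) (Zs m) := pick_spec h

lemma Xm_sub {m n : ℕ} (h : Nn m ≠ 0) (hmn : m < n) : Xm m ⊆ Zs n := by
  refine Set.Subset.trans ?_ (Zs_mono (Nat.succ_le_of_lt hmn))
  conv_rhs => unfold Zs
  rw [if_neg (show ¬ pick m (Zs m) = 0 from h)]
  exact Set.subset_union_right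

lemma Xm_Xm {i j : ℕ} (hi : Nn i ≠ 0) (hj : Nn j ≠ 0) (hij : i ≠ j) : Disjoint (Xm i) (Xm j) := by
  rcases lt_or_gt_of_ne hij with h | h
  · exact ((Xm_disj hj).mono_right (Xm_sub hi h)).symm
  · exact (Xm_disj hi).mono_right (Xm_sub hj h)

lemma Xm_Kb {m : ℕ} (h : Nn m ≠ 0) : Disjoint (Xm m) Kb :=
  (Xm_disj h).mono_right (Set.Subset.trans Set.subset_union_left (Zs_mono (Nat.zero_le m)))

lemma Xm_gam {m : ℕ} (h : Nn m ≠ 0) : Disjoint (Xm m) (Xs gam) :=
  (Xm_disj h).mono_right (Set.Subset.trans Set.subset_union_right (Zs_mono (Nat.zero_le m)))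

/-- the points of the closed set `Zs m` -/
lemma mem_Zs {m : ℕ} {z : X} (h : z ∈ Zs m) :
    z ∈ Kb ∨ z ∈ Xs gam ∨ ∃ i, Nn i ≠ 0 ∧ z ∈ Xm i := by
  induction m with
  | zero =>
    rcases h with h | h
    · exact Or.inl h
    · exact Or.inr (Or.inl h)
  | succ m ih =>
    unfold Zs at h
    rcases h with h | h
    · exact ih h
    · split_ifs at h with h1
      · exact absurd h (Set.notMem_empty _)
      · exact Or.inr (Or.inr ⟨m, h1, h⟩)

/-- the group -/
noncomputable def Gam : Subgroup G :=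
  Subgroup.closure ({gam} ∪ {g | ∃ m, Nn m ≠ 0 ∧ g = par (en m) (Nn m)})

lemma gam_mem : gam ∈ Gam := Subgroup.subset_closure (Or.inl rfl)
lemma par_mem {m : ℕ} (h : Nn m ≠ 0) : par (en m) (Nn m) ∈ Gam :=
  Subgroup.subset_closure (Or.inr ⟨m, h, rfl⟩)

lemma Gam_le : Gam ≤ GG := by
  unfold Gam
  rw [Subgroup.closure_le]
  rintro g (rfl | ⟨m, -, rfl⟩)
  · exact gam_GG
  · exact par_GG (en_mem m) _

/-! ### all limit points -/

/-- the closure of the fixed points of the parabolic generators and their translates -/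
def Lam : Set X := closure {w | ∃ g ∈ Gam, ∃ m, Nn m ≠ 0 ∧ w = g • (en m • (OnePoint.infty : X))}

lemma Lam_inv {g : G} (hg : g ∈ Gam) {z : X} (hz : z ∈ Lam) : g • z ∈ Lam := by
  refine map_mem_closure (cont_smul g) hz ?_
  rintro w ⟨h, hh, m, hm, rfl⟩
  exact ⟨g * h, Gam.mul_mem hg hh, m, hm, by rw [mul_smul]⟩

lemma wv_GV {g : G} (h : g ∈ GG) : GV (wv g) := by
  obtain ⟨-, k, rfl⟩ := h
  exact GV_act ⟨1, 0, by simp⟩ k

lemma pt_wv (g : G) : pt (wv g) = g • (OnePoint.infty : X) := by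
  rw [smul_eq]; rfl

/-- **every Gaussian cusp is a limit point** -/
lemma cusp_mem {g : G} (hg : g ∈ GG) : g • (OnePoint.infty : X) ∈ Lam := by
  by_contra hcon
  obtain ⟨v, ⟨g, hg, hgL, rfl⟩, hmin⟩ := H_min (S := {v | ∃ g ∈ GG, g • (OnePoint.infty : X) ∉ Lam ∧
    v = wv g}) (by rintro v ⟨g, hg, -, rfl⟩; exact wv_GV hg) ⟨wv g, g, hg, hcon, rfl⟩
  obtain ⟨m, rfl⟩ := en_surj hg
  -- a general step
  have step : ∀ h ∈ GG, h ∈ Gam → H (act h (wv (en m))) ≤ H (wv (en m)) →
      h • (en m • (OnePoint.infty : X)) = en m • (OnePoint.infty : X) := by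
    intro h hh hG hle
    have h1 : act h (wv (en m)) = wv (h * en m) := by unfold wv; rw [act_mul]
    have h2 : (h * en m) • (OnePoint.infty : X) ∉ Lam := by
      intro hL
      apply hgL
      have := Lam_inv (Gam.inv_mem hG) hL
      rwa [mul_smul, inv_smul_smul] at this
    have h3 := hmin (wv (h * en m)) ⟨_, GG.mul_mem hh hg, h2, rfl⟩
    rw [h1] at hle
    have h4 := H_inj (wv_GV (GG.mul_mem hh hg)) (wv_GV hg) (wv_ne _) (wv_ne _) (le_antisymm hle h3)
    rw [pt_wv, pt_wv, mul_smul] at h4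
    exact h4
  by_cases hZ : en m • (OnePoint.infty : X) ∈ Zs m
  · rcases mem_Zs hZ with h | h | ⟨i, hi, h⟩
    · rw [← pt_wv] at h
      exact GV_Kb (wv_GV hg) (wv_ne _) h
    · rw [← pt_wv, mem_Xs (wv_ne _)] at h
      rcases h with h | h
      · have := step gam gam_GG gam_mem h
        rw [← pt_wv] at this
        exact GV_gam (wv_GV hg) (wv_ne _) this
      · have := step gam⁻¹ (GG.inv_mem gam_GG) (Gam.inv_mem gam_mem) h
        rw [inv_smul_eq_iff, ← pt_wv] at this
        exact GV_gam (wv_GV hg) (wv_ne _) this.symm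
    · have hn : ((Nn i : ℕ) : ℤ) ≠ 0 := by exact_mod_cast hi
      have hfix : par (en i) (Nn i) • (en m • (OnePoint.infty : X)) = en m • (OnePoint.infty : X) := by
        have h' : pt (wv (en m)) ∈ Xs (par (en i) (Nn i)) := by rw [pt_wv]; exact h
        rw [mem_Xs (wv_ne _)] at h'
        rcases h' with h' | h'
        · exact step _ (par_GG (en_mem i) _) (par_mem hi) h'
        · have := step _ (GG.inv_mem (par_GG (en_mem i) _)) (Gam.inv_mem (par_mem hi)) h'
          rw [inv_smul_eq_iff] at this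
          exact this.symm
      have := par_fix_iff hn hfix
      apply hgL
      rw [this]
      exact subset_closure ⟨1, Gam.one_mem, i, hi, by rw [one_smul]⟩
  · apply hgL
    exact subset_closure ⟨1, Gam.one_mem, m, Nn_ne hZ, by rw [one_smul]⟩

/-- the real circle is the closure of its cusps -/
lemma R0_closure : R0 ⊆ closure {w | ∃ k : Matrix.SpecialLinearGroup (Fin 2) ℤ,
    w = embZ k • (OnePoint.infty : X)} := by
  intro z hz
  rcases hz with rfl | ⟨t, rfl⟩
  · exact subset_closure ⟨1, by rw [map_one, one_smul]⟩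
  · have h1 : t ∈ closure (Set.range ((↑) : ℚ → ℝ)) := by
      rw [Rat.denseRange_cast.closure_range]; trivial
    have h2 : Continuous (fun x : ℝ => ((x : ℂ) : X)) :=
      OnePoint.continuous_coe.comp continuous_ofReal
    refine map_mem_closure (f := fun x : ℝ => ((x : ℂ) : X)) h2 h1 ?_
    rintro _ ⟨r, rfl⟩
    obtain ⟨k, hk⟩ := exists_k r.num r.den (by
      rintro ⟨-, h⟩
      have := r.den_ne_zero
      omega)
    refine ⟨k, ?_⟩
    rw [hk]
    have hd : ((r.den : ℤ) : ℂ) ≠ 0 := by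
      have := r.den_ne_zero
      exact_mod_cast this
    unfold pt
    simp only
    rw [if_neg hd]
    congr 1
    push_cast
    rw [← Rat.cast_def r]

/-- the closure of the packing -/
def LP : Set X := closure (⋃₀ P)

lemma LP_sub : LP ⊆ Lam := by
  refine closure_minimal ?_ isClosed_closure
  rintro z ⟨V, hV, hz⟩
  obtain ⟨k, hk, rfl⟩ := P_trans V hV
  rw [mem_im] at hz
  have h1 := R0_closure hz
  have h2 : emb k • ((emb k)⁻¹ • z) ∈ closure {w | ∃ g ∈ GG, w = g • (OnePoint.infty : X)} := by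
    refine map_mem_closure (cont_smul (emb k)) h1 ?_
    rintro w ⟨l, rfl⟩
    refine ⟨emb k * embZ l, GG.mul_mem ⟨hk, k, rfl⟩ ⟨embZ_mem_SymP l, ?_⟩, by rw [mul_smul]⟩
    obtain ⟨j, hj⟩ := embZ_mem l
    exact ⟨j, hj.symm⟩
  rw [smul_inv_smul] at h2
  refine closure_minimal ?_ isClosed_closure h2
  rintro w ⟨g, hg, rfl⟩
  exact cusp_mem hg

lemma LP_inv {g : G} (hg : g ∈ GG) {z : X} (hz : z ∈ LP) : g • z ∈ LP := by
  refine map_mem_closure (cont_smul g) hz ?_
  rintro w ⟨V, hV, hw⟩
  exact ⟨im g V, (hg.1 V).1 hV, ⟨w, hw, rfl⟩⟩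

lemma R0_LP : R0 ⊆ LP := fun _ hz => subset_closure ⟨R0, P_base.1, hz⟩

/-- **the limit set** -/
theorem limit_set (z : X) : derivedSet {w : X | ∃ g ∈ Gam, w = g • z} = LP := by
  apply Set.Subset.antisymm
  · refine derived_sub Gam (fun g hg => (Gam_le hg).2) isClosed_closure
      (fun g hg w hw => LP_inv (Gam_le hg) hw) ?_ ?_ z
    · refine R0_LP ?_
      rw [R0_eq, mem_Zq_pt (by simp)]
      simp [q, ss]
    · refine R0_LP ?_
      rw [R0_eq, mem_Zq_pt (by simp)]
      simp [q, ss]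
  · refine LP_sub.trans ?_
    refine closure_minimal ?_ (isClosed_derivedSet _)
    rintro p ⟨g, hg, m, hm, rfl⟩
    rw [← mul_smul]
    set k := g * en m with hk
    have hkGG : k ∈ GG := GG.mul_mem (Gam_le hg) (en_mem m)
    have hpk : par k (Nn m) ∈ Gam := by
      have : par k (Nn m) = g * par (en m) (Nn m) * g⁻¹ := by
        rw [hk]; unfold par; group
      rw [this]
      exact Gam.mul_mem (Gam.mul_mem hg (par_mem hm)) (Gam.inv_mem hg)
    -- a point of the orbit which is not the cusp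
    obtain ⟨h, hh, hne⟩ : ∃ h ∈ Gam, h • z ≠ k • (OnePoint.infty : X) := by
      by_cases hz : z = k • (OnePoint.infty : X)
      · refine ⟨gam, gam_mem, ?_⟩
        rw [hz, ← pt_wv]
        exact GV_gam (wv_GV hkGG) (wv_ne _)
      · exact ⟨1, Gam.one_mem, by rwa [one_smul]⟩
    rw [mem_derivedSet, accPt_iff_nhds]
    intro O hO
    obtain ⟨O', hO', hop, hpO⟩ := mem_nhds_iff.1 hO
    have hcl : IsClosed (O'ᶜ ∪ {h • z}) := hop.isClosed_compl.union isClosed_singleton
    obtain ⟨n, hn, hdis⟩ := small k hcl (by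
      rintro (h1 | h1)
      · exact h1 hpO
      · exact hne h1.symm)
    have h1 : h • z ∉ Xs (par k n) := fun hin => Set.disjoint_left.1 hdis hin (Or.inr rfl)
    have h2 := pp (SC_par k n) h1 (n := (Nn m : ℤ)) (by exact_mod_cast hm)
    have h3 : (par k n) ^ ((Nn m : ℕ) : ℤ) = (par k (Nn m)) ^ n := by
      rw [zpow_natCast, par_pow, par_pow, mul_comm]
    rw [h3] at h2
    refine ⟨(par k (Nn m)) ^ n • (h • z), ⟨hO' ?_, ?_⟩, ?_⟩
    · by_contra hcon
      exact Set.disjoint_left.1 hdis h2 (Or.inl hcon)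
    · exact ⟨(par k (Nn m)) ^ n * h, Gam.mul_mem (Gam.pow_mem hpk n) hh, by rw [mul_smul]⟩
    · intro he
      have h4 : (par k (Nn m)) ^ n • (k • (OnePoint.infty : X)) = k • (OnePoint.infty : X) := by
        rw [par_pow, par_fix]
      rw [← h4] at he
      exact hne (MulAction.injective _ he)

end Pool.Agent.X221.AP
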