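import Pool.Agent.X221.AP.Circ

set_option autoImplicit false

open OnePoint Matrix Complex Topology Filter

namespace Pool.Agent.X221.AP

lemma q_key (A e1 e2 D : ℝ) (v : Vc) : 4 * A * q A e1 e2 D v =
    normSq (2 * A * v.1 + e2 * v.2) + (4 * A * D - e2 ^ 2) * normSq v.2 + 4 * A * e1 * ss v := by
  unfold q ss rr
  simp only [normSq_apply, mul_re, mul_im, add_re, add_im, ofReal_re, ofReal_im, re_ofNat, im_ofNat]
  ring

lemma q_key' (A e1 e2 D : ℝ) (v : Vc) : 4 * D * q A e1 e2 D v =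
    normSq (2 * D * v.2 + e2 * v.1) + (4 * A * D - e2 ^ 2) * normSq v.1 + 4 * D * e1 * ss v := by
  unfold q ss rr
  simp only [normSq_apply, mul_re, mul_im, add_re, add_im, ofReal_re, ofReal_im, re_ofNat, im_ofNat]
  ring

/-- every Gaussian circle lies on one side of the real circle -/
lemma side0 {V : Set X} (h : V ∈ F0) :
    (∀ z ∈ V, 0 ≤ ss (rep z)) ∨ (∀ z ∈ V, ss (rep z) ≤ 0) := by
  obtain ⟨A, e1, e2, D, rfl, hodd, hdet⟩ := int_circ h
  have he1 : (1 : ℤ) ≤ e1 ^ 2 := by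
    have : e1 ≠ 0 := by rintro rfl; simp at hodd
    have : 0 < e1 ^ 2 := by positivity
    omega
  have hd : (0 : ℝ) ≤ 4 * A * D - e2 ^ 2 := by
    have : (0 : ℤ) ≤ 4 * A * D - e2 ^ 2 := by linarith
    exact_mod_cast this
  have k1 : ∀ z ∈ Zq A e1 e2 D, (A * e1 : ℝ) * ss (rep z) ≤ 0 := by
    intro z hz
    have h0 : q A e1 e2 D (rep z) = 0 := hz
    have h1 := q_key A e1 e2 D (rep z)
    rw [h0] at h1
    have h2 := normSq_nonneg (2 * ((A : ℝ) : ℂ) * (rep z).1 + ((e2 : ℝ) : ℂ) * (rep z).2)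
    have h3 := mul_nonneg hd (normSq_nonneg (rep z).2)
    linarith
  have k2 : ∀ z ∈ Zq A e1 e2 D, (D * e1 : ℝ) * ss (rep z) ≤ 0 := by
    intro z hz
    have h0 : q A e1 e2 D (rep z) = 0 := hz
    have h1 := q_key' A e1 e2 D (rep z)
    rw [h0] at h1
    have h2 := normSq_nonneg (2 * ((D : ℝ) : ℂ) * (rep z).2 + ((e2 : ℝ) : ℂ) * (rep z).1)
    have h3 := mul_nonneg hd (normSq_nonneg (rep z).1)
    linarith
  have sgn : ∀ t : ℝ, t ≠ 0 → (∀ z ∈ Zq A e1 e2 D, t * ss (rep z) ≤ 0) →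
      (∀ z ∈ Zq A e1 e2 D, 0 ≤ ss (rep z)) ∨ (∀ z ∈ Zq A e1 e2 D, ss (rep z) ≤ 0) := by
    intro t ht hk
    rcases lt_or_gt_of_ne ht with h1 | h1
    · left
      intro z hz
      have := hk z hz
      by_contra hlt
      push Not at hlt
      nlinarith
    · right
      intro z hz
      have := hk z hz
      by_contra hlt
      push Not at hlt
      nlinarith
  have he1' : (e1 : ℝ) ≠ 0 := by
    have : e1 ≠ 0 := by rintro rfl; simp at hodd
    exact_mod_cast this
  by_cases hA : (A : ℝ) = 0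
  · by_cases hD : (D : ℝ) = 0
    · left
      intro z hz
      have hA' : A = 0 := by exact_mod_cast hA
      have hD' : D = 0 := by exact_mod_cast hD
      have he2 : e2 = 0 := by
        have : e2 ^ 2 ≤ 0 := by rw [hA'] at hdet; linarith
        exact pow_eq_zero_iff (two_ne_zero) |>.1 (le_antisymm this (sq_nonneg _))
      have h0 : q A e1 e2 D (rep z) = 0 := hz
      rw [hA', hD', he2] at h0
      unfold q at h0
      simp [he1'] at h0
      rw [h0]
    · exact sgn _ (mul_ne_zero hD he1') k2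
  · exact sgn _ (mul_ne_zero hA he1') k1

/-- the integral translations etc. -/
noncomputable def embZ : Matrix.SpecialLinearGroup (Fin 2) ℤ →* G :=
  emb.comp (Matrix.SpecialLinearGroup.map (Int.castRingHom GaussianInt))

lemma embZ_mem (k : Matrix.SpecialLinearGroup (Fin 2) ℤ) : ∃ l, embZ k = emb l := ⟨_, rfl⟩

lemma embZ_apply (k : Matrix.SpecialLinearGroup (Fin 2) ℤ) (i j : Fin 2) :
    embZ k i j = ((k i j : ℤ) : ℂ) := by
  show (((Int.castRingHom GaussianInt) (k i j) : GaussianInt) : ℂ) = _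
  simp

lemma embZ_R0 (k : Matrix.SpecialLinearGroup (Fin 2) ℤ) : im (embZ k) R0 = R0 := by
  rw [im_R0, R0_eq]
  have h : (k 0 0) * (k 1 1) - (k 0 1) * (k 1 0) = 1 := by
    rw [← Matrix.det_fin_two, k.det_coe]
  have h' : ((k 0 0 : ℤ) : ℝ) * (k 1 1) - (k 0 1) * (k 1 0) = 1 := by exact_mod_cast h
  unfold cA cD cE
  simp only [embZ_apply]
  congr 1
  · simp
  · simp only [mul_re, sub_re, conj_re, conj_im, intCast_re, intCast_im]
    linarith
  · simp
  · simp

/-- every rational point is the image of infinity under the modular group -/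
lemma exists_k (m n : ℤ) (h : ¬ (m = 0 ∧ n = 0)) :
    ∃ k : Matrix.SpecialLinearGroup (Fin 2) ℤ, embZ k • (OnePoint.infty : X) = pt ((m : ℂ), (n : ℂ)) := by
  have hg : Int.gcd m n ≠ 0 := by
    intro h0
    rw [Int.gcd_eq_zero_iff] at h0
    exact h h0
  obtain ⟨m', hm⟩ := Int.gcd_dvd_left (a := m) (b := n)
  obtain ⟨n', hn⟩ := Int.gcd_dvd_right (a := m) (b := n)
  have hg' : ((Int.gcd m n : ℕ) : ℤ) ≠ 0 := by exact_mod_cast hg
  have hb := Int.gcd_eq_gcd_ab m n
  set g : ℤ := ((Int.gcd m n : ℕ) : ℤ) with hgdef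
  set u := Int.gcdA m n
  set w := Int.gcdB m n
  have h1 : m' * u + n' * w = 1 := by
    have : g * (m' * u + n' * w) = g * 1 := by
      calc g * (m' * u + n' * w) = (g * m') * u + (g * n') * w := by ring
        _ = m * u + n * w := by rw [← hm, ← hn]
        _ = g * 1 := by rw [← hb, mul_one]
    exact mul_left_cancel₀ hg' this
  obtain ⟨k, k00, k10⟩ : ∃ k : Matrix.SpecialLinearGroup (Fin 2) ℤ, k 0 0 = m' ∧ k 1 0 = n' :=
    ⟨⟨!![m', -w; n', u], by rw [Matrix.det_fin_two_of]; linarith⟩, rfl, rfl⟩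
  refine ⟨k, ?_⟩
  rw [smul_eq]
  have e : act (embZ k) (rep (OnePoint.infty : X)) = ((m' : ℂ), (n' : ℂ)) := by
    unfold act
    simp only [embZ_apply, k00, k10]
    simp
  rw [e]
  have e2 : ((m : ℂ), (n : ℂ)) = ((g : ℤ) : ℂ) • (((m' : ℂ), (n' : ℂ)) : Vc) := by
    ext
    · simp only [Prod.smul_fst, smul_eq_mul]
      rw [hm]; push_cast; ring
    · simp only [Prod.smul_snd, smul_eq_mul]
      rw [hn]; push_cast; ring
  rw [e2, pt_smul (by exact_mod_cast hg')]

/-- the horizontal line `Im z = m` -/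
noncomputable def Ln (m : ℝ) : Set X := Zq 0 1 0 (-m)

lemma R0_two {S : Set X} (h : S = R0) : ¬ Tg S R0 := by
  rintro ⟨p, hp, hu⟩
  rw [h, Set.inter_self] at hu
  have h1 := hu (OnePoint.infty) (by left; rfl)
  have h2 := hu (((0 : ℝ) : ℂ) : X) (by right; exact ⟨0, rfl⟩)
  rw [← h1] at h2
  exact OnePoint.coe_ne_infty _ h2

/-- a Gaussian circle different from the real circle meets it in at most one point, and this point
is rational -/
lemma meet0 {V : Set X} (h : V ∈ F0) (hne : V ≠ R0) :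
    ∃ m n : ℤ, ¬ (m = 0 ∧ n = 0) ∧ ∀ p ∈ V ∩ R0, p = pt ((m : ℂ), (n : ℂ)) := by
  obtain ⟨A, e1, e2, D, hV, hodd, hdet⟩ := int_circ h
  have he1 : (1 : ℤ) ≤ e1 ^ 2 := by
    have : e1 ≠ 0 := by rintro rfl; simp at hodd
    have : 0 < e1 ^ 2 := by positivity
    omega
  have hd : (0 : ℝ) ≤ 4 * A * D - e2 ^ 2 := by
    have : (0 : ℤ) ≤ 4 * A * D - e2 ^ 2 := by linarith
    exact_mod_cast this
  have key : ∀ p ∈ V ∩ R0, 2 * (A : ℂ) * (rep p).1 + e2 * (rep p).2 = 0 ∧
      2 * (D : ℂ) * (rep p).2 + e2 * (rep p).1 = 0 := by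
    rintro p ⟨hpV, hp0⟩
    have hq : q A e1 e2 D (rep p) = 0 := by rw [hV] at hpV; exact hpV
    have hs := mem_R0.1 hp0
    have h1 := q_key A e1 e2 D (rep p)
    have h2 := q_key' A e1 e2 D (rep p)
    rw [hq, hs] at h1 h2
    simp only [mul_zero, add_zero] at h1 h2
    have g1 := normSq_nonneg (2 * A * (rep p).1 + e2 * (rep p).2)
    have g2 := mul_nonneg hd (normSq_nonneg (rep p).2)
    have g3 := normSq_nonneg (2 * D * (rep p).2 + e2 * (rep p).1)
    have g4 := mul_nonneg hd (normSq_nonneg (rep p).1)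
    constructor
    · have : normSq (2 * A * (rep p).1 + e2 * (rep p).2) = 0 := by
        push_cast at g1 h1 ⊢
        linarith
      exact normSq_eq_zero.1 this
    · have : normSq (2 * D * (rep p).2 + e2 * (rep p).1) = 0 := by
        push_cast at g3 h2 ⊢
        linarith
      exact normSq_eq_zero.1 this
  by_cases hA : A = 0
  · have he2 : e2 = 0 := by
      have : e2 ^ 2 ≤ 0 := by rw [hA] at hdet; linarith
      exact pow_eq_zero_iff (two_ne_zero) |>.1 (le_antisymm this (sq_nonneg _))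
    have hD : D ≠ 0 := by
      intro hD
      apply hne
      have he : e1 ^ 2 = 1 := by rw [hA, he2, hD] at hdet; linarith
      rw [hV, hA, he2, hD, R0_eq]
      have he' : (e1 : ℝ) ≠ 0 := by
        intro h0
        have : e1 = 0 := by exact_mod_cast h0
        rw [this] at he; norm_num at he
      exact Zq_scale (e1 : ℝ) he' (by simp) (by simp) (by simp) (by simp)
    refine ⟨1, 0, by simp, fun p hp => ?_⟩
    obtain ⟨-, z3⟩ := key p hp
    rw [he2] at z3
    have : (rep p).2 = 0 := by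
      have hD' : (D : ℂ) ≠ 0 := by exact_mod_cast hD
      simpa [hD'] using z3
    conv_lhs => rw [← pt_rep p]
    rw [pt_eq_iff (rep_ne p) (by simp)]
    unfold dt
    simp [this]
  · refine ⟨-e2, 2 * A, by intro h0; exact hA (by linarith [h0.2]), fun p hp => ?_⟩
    obtain ⟨z1, -⟩ := key p hp
    have hA' : (A : ℂ) ≠ 0 := by exact_mod_cast hA
    conv_lhs => rw [← pt_rep p]
    rw [pt_eq_iff (rep_ne p) (by
      intro h0
      have := congrArg Prod.snd h0
      simp [hA'] at this)]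
    unfold dt
    push_cast
    linear_combination z1

/-- **Gaussian circles tangent to the real circle** -/
lemma tangent0 {V : Set X} (h : V ∈ F0) (ht : Tg V R0) :
    ∃ k : Matrix.SpecialLinearGroup (Fin 2) ℤ, ∃ m : ℤ, m ≠ 0 ∧ V = im (embZ k) (Ln m) := by
  obtain ⟨p, ⟨hpV, hp0⟩, hu⟩ := ht
  have hne : V ≠ R0 := fun he => R0_two he ⟨p, ⟨hpV, hp0⟩, hu⟩
  have hrat : ∃ m n : ℤ, ¬ (m = 0 ∧ n = 0) ∧ p = pt ((m : ℂ), (n : ℂ)) := by
    obtain ⟨m, n, hmn, hall⟩ := meet0 h hne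
    exact ⟨m, n, hmn, hall p ⟨hpV, hp0⟩⟩
  obtain ⟨m, n, hmn, hp⟩ := hrat
  obtain ⟨k, hk⟩ := exists_k m n hmn
  obtain ⟨l, hl⟩ := embZ_mem k⁻¹
  -- move the point to infinity
  have hW : im (embZ k⁻¹) V ∈ F0 := by rw [hl]; exact F0.im h l
  obtain ⟨A', e1', e2', D', hW', hodd', hdet'⟩ := int_circ hW
  have hinf : (OnePoint.infty : X) ∈ im (embZ k⁻¹) V := by
    rw [mem_im, map_inv, inv_inv, hk, ← hp]
    exact hpV
  have hA' : A' = 0 := by
    rw [hW', mem_Zq_infty] at hinf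
    exact_mod_cast hinf
  have hsum : e1' ^ 2 + e2' ^ 2 = 1 := by rw [hA'] at hdet'; linarith
  have he1' : 1 ≤ e1' ^ 2 := by
    have : e1' ≠ 0 := by rintro rfl; simp at hodd'
    have : 0 < e1' ^ 2 := by positivity
    omega
  have he1 : e1' ^ 2 = 1 := by nlinarith [sq_nonneg e2']
  have he2 : e2' = 0 := by
    have : e2' ^ 2 = 0 := by linarith
    exact pow_eq_zero_iff (two_ne_zero) |>.1 this
  have hWL : im (embZ k⁻¹) V = Ln ((-(D' * e1') : ℤ) : ℝ) := by
    rw [hW', hA', he2]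
    unfold Ln
    have h1 : (e1' : ℝ) ^ 2 = 1 := by exact_mod_cast he1
    refine Zq_scale (e1' : ℝ) (by intro h0; rw [h0] at h1; norm_num at h1) (by simp) (by simp)
      (by simp) ?_
    push_cast
    linear_combination (-(D' : ℝ)) * h1
  refine ⟨k, -(D' * e1'), ?_, ?_⟩
  · intro h0
    rw [h0] at hWL
    apply hne
    have : im (embZ k⁻¹) V = R0 := by
      rw [hWL, R0_eq]; unfold Ln; simp
    rw [map_inv] at this
    rw [← im_im_inv (embZ k) V, this, embZ_R0]
  · rw [← hWL, map_inv, im_im_inv]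

end Pool.Agent.X221.AP
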