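import Pool.Agent.X221.AP.Basic

set_option autoImplicit false

open OnePoint Matrix Complex Topology Filter

namespace Pool.Agent.X221.AP

/-- squared chordal distance -/
noncomputable def Dd (z w : X) : ℝ :=
  normSq (dt (rep z) (rep w)) / (n2 (rep z) * n2 (rep w))

lemma Dd_pt {v w : Vc} (hv : v ≠ 0) (hw : w ≠ 0) :
    Dd (pt v) (pt w) = normSq (dt v w) / (n2 v * n2 w) := by
  obtain ⟨c, hc, h⟩ := exists_smul_rep hv
  obtain ⟨d, hd, h'⟩ := exists_smul_rep hw
  unfold Dd
  conv_rhs => rw [h, h']
  rw [dt_smul_left, dt_smul_right, n2_smul, n2_smul, normSq_mul, normSq_mul]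
  have h1 : normSq c ≠ 0 := by simpa using hc
  have h2 : normSq d ≠ 0 := by simpa using hd
  have h3 := (n2_pos (rep_ne (pt v))).ne'
  have h4 := (n2_pos (rep_ne (pt w))).ne'
  field_simp

lemma Dd_nonneg (z w : X) : 0 ≤ Dd z w :=
  div_nonneg (normSq_nonneg _) (mul_nonneg (n2_nonneg _) (n2_nonneg _))

lemma Dd_eq_zero {z w : X} : Dd z w = 0 ↔ z = w := by
  unfold Dd
  have h3 := (n2_pos (rep_ne z)).ne'
  have h4 := (n2_pos (rep_ne w)).ne'
  rw [div_eq_zero_iff]
  simp only [mul_eq_zero, h3, h4, or_self, or_false, normSq_eq_zero]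
  rw [← pt_eq_iff (rep_ne z) (rep_ne w), pt_rep, pt_rep]

lemma dt_comm (v w : Vc) : dt v w = - dt w v := by unfold dt; ring

lemma Dd_comm (z w : X) : Dd z w = Dd w z := by
  unfold Dd
  rw [dt_comm, normSq_neg, mul_comm]

lemma Dd_self (z : X) : Dd z z = 0 := Dd_eq_zero.2 rfl

lemma cont_n2 : Continuous n2 := by
  unfold n2; exact (continuous_normSq.comp continuous_fst).add (continuous_normSq.comp continuous_snd)

lemma cont_act (g : G) : Continuous (act g) := by
  unfold act; fun_prop

lemma cont_dt_left (w : Vc) : Continuous (fun v => dt v w) := by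
  unfold dt; fun_prop

lemma cont_Dd_smul (g : G) (w : X) : Continuous (fun z : X => Dd (g • z) w) := by
  have h := cont_ind (fun v => normSq (dt (act g v) (rep w)) / (n2 (act g v) * n2 (rep w)))
    (by
      apply ContinuousOn.div
      · exact (continuous_normSq.comp ((cont_dt_left _).comp (cont_act g))).continuousOn
      · exact ((cont_n2.comp (cont_act g)).mul continuous_const).continuousOn
      · intro v hv
        exact mul_ne_zero (n2_pos (act_ne hv)).ne' (n2_pos (rep_ne w)).ne')
    (by
      intro c hc v hv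
      have h1 : normSq c ≠ 0 := by simpa using hc
      have h3 := (n2_pos (act_ne (g := g) hv)).ne'
      have h4 := (n2_pos (rep_ne w)).ne'
      simp only [act_smul, dt_smul_left, n2_smul, normSq_mul]
      field_simp)
  refine h.congr fun z => ?_
  conv_rhs => rw [smul_eq, ← pt_rep w]
  rw [Dd_pt (act_ne (rep_ne z)) (rep_ne w)]

lemma cont_Dd (w : X) : Continuous (fun z : X => Dd z w) := by
  simpa using cont_Dd_smul 1 w

/-- the sets `Dd u p < ε` form a neighbourhood basis -/
lemma basis {O : Set X} (hO : IsOpen O) {p : X} (hp : p ∈ O) :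
    ∃ ε : ℝ, 0 < ε ∧ ∀ u, Dd u p < ε → u ∈ O := by
  by_cases hne : (Oᶜ).Nonempty
  · have hc : IsCompact (Oᶜ) := (hO.isClosed_compl).isCompact
    obtain ⟨u, hu, hmin⟩ := hc.exists_isMinOn hne (cont_Dd p).continuousOn
    refine ⟨Dd u p, ?_, ?_⟩
    · rcases (Dd_nonneg u p).eq_or_lt with h | h
      · exfalso
        have := Dd_eq_zero.1 h.symm
        rw [this] at hu
        exact hu hp
      · exact h
    · intro w hw
      by_contra hwO
      exact absurd (hmin hwO) (by simpa using hw)
  · refine ⟨1, one_pos, fun u _ => ?_⟩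
    by_contra h
    exact hne ⟨u, h⟩

lemma cont_smul (g : G) : Continuous (fun z : X => g • z) := by
  rw [continuous_iff_continuousAt]
  intro p
  intro s hs
  obtain ⟨O, hOs, hO, hpO⟩ := mem_nhds_iff.1 hs
  obtain ⟨ε, hε, h⟩ := basis hO hpO
  have h1 : {u : X | Dd (g • u) (g • p) < ε} ∈ 𝓝 p :=
    (isOpen_lt (cont_Dd_smul g (g • p)) continuous_const).mem_nhds (by simpa [Dd_self] using hε)
  exact Filter.mem_of_superset h1 fun u hu => hOs (h _ hu)

lemma cont_entry (i j : Fin 2) : Continuous (fun h : G => h i j) := by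
  have h1 : Continuous (fun h : G => (h : Matrix (Fin 2) (Fin 2) ℂ)) := Units.continuous_val
  exact (continuous_apply j).comp ((continuous_apply i).comp h1)

/-- continuity in the group element -/
lemma event_smul {O : Set X} (hO : IsOpen O) {g : G} {z : X} (hz : g • z ∈ O) :
    ∀ᶠ h in 𝓝 g, h • z ∈ O := by
  obtain ⟨ε, hε, hb⟩ := basis hO hz
  have hc : ContinuousAt (fun h : G => Dd (h • z) (g • z)) g := by
    have h1 : (fun h : G => Dd (h • z) (g • z)) = fun h : G =>
        normSq (dt (act h (rep z)) (rep (g • z))) / (n2 (act h (rep z)) * n2 (rep (g • z))) := by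
      funext h
      conv_lhs => rw [smul_eq h z, ← pt_rep (g • z)]
      rw [Dd_pt (act_ne (rep_ne z)) (rep_ne _)]
    rw [h1]
    have hact : Continuous (fun h : G => act h (rep z)) := by
      unfold act
      refine Continuous.prodMk ?_ ?_
      · exact ((cont_entry 0 0).mul continuous_const).add ((cont_entry 0 1).mul continuous_const)
      · exact ((cont_entry 1 0).mul continuous_const).add ((cont_entry 1 1).mul continuous_const)
    apply ContinuousAt.div
    · exact (continuous_normSq.comp ((cont_dt_left _).comp hact)).continuousAt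
    · exact ((cont_n2.comp hact).mul continuous_const).continuousAt
    · exact mul_ne_zero (n2_pos (act_ne (rep_ne z))).ne' (n2_pos (rep_ne _)).ne'
  have h2 : ∀ᶠ h in 𝓝 g, Dd (h • z) (g • z) < ε :=
    hc.eventually_lt continuousAt_const (by simpa [Dd_self] using hε)
  exact h2.mono fun h hh => hb _ hh

/-- a weak triangle inequality -/
lemma tri (y u l : X) : Dd y l ≤ 2 * (Dd u l + Dd u y) := by
  have hy := n2_pos (rep_ne y)
  have hu := n2_pos (rep_ne u)
  have hl := n2_pos (rep_ne l)
  set Y := rep y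
  set U := rep u
  set L := rep l
  have key : normSq (dt Y L) * n2 U ≤ 2 * (normSq (dt U L) * n2 Y + normSq (dt U Y) * n2 L) := by
    have h1 : ∀ a b : ℂ, normSq (a + b) ≤ 2 * (normSq a + normSq b) := by
      intro a b
      simp only [normSq_apply, add_re, add_im]
      nlinarith [sq_nonneg (a.re - b.re), sq_nonneg (a.im - b.im)]
    have e1 : dt Y L * U.1 = dt U L * Y.1 + (- dt U Y) * L.1 := by unfold dt; ring
    have e2 : dt Y L * U.2 = dt U L * Y.2 + (- dt U Y) * L.2 := by unfold dt; ring
    have i1 := h1 (dt U L * Y.1) ((- dt U Y) * L.1)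
    have i2 := h1 (dt U L * Y.2) ((- dt U Y) * L.2)
    rw [← e1] at i1
    rw [← e2] at i2
    simp only [normSq_mul, normSq_neg] at i1 i2
    unfold n2
    nlinarith [i1, i2]
  have e : Dd y l = (normSq (dt Y L) * n2 U) / (n2 Y * n2 L * n2 U) := by
    unfold Dd; rw [mul_div_mul_right _ _ hu.ne']
  have e' : 2 * (Dd u l + Dd u y) =
      (2 * (normSq (dt U L) * n2 Y + normSq (dt U Y) * n2 L)) / (n2 Y * n2 L * n2 U) := by
    unfold Dd
    have h1 := hy.ne'
    have h2 := hu.ne'
    have h3 := hl.ne'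
    show 2 * (normSq (dt U L) / (n2 U * n2 L) + normSq (dt U Y) / (n2 U * n2 Y)) = _
    field_simp
  rw [e, e']
  exact div_le_div_of_nonneg_right key (by positivity)

/-- the distance to a closed set -/
lemma exists_gap {L : Set X} (hL : IsClosed L) {y : X} (hy : y ∉ L) :
    ∃ δ : ℝ, 0 < δ ∧ ∀ l ∈ L, δ ≤ Dd y l := by
  obtain ⟨ε, hε, h⟩ := basis hL.isOpen_compl (show y ∈ Lᶜ from hy)
  refine ⟨ε, hε, fun l hl => ?_⟩
  by_contra hlt
  push Not at hlt
  exact h l (by rw [Dd_comm]; exact hlt) hl

end Pool.Agent.X221.AP
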